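import Pool.Agent.H92.V0F.Hex
import Pool.Agent.H23.D2.Bln
import Pool.Agent.H91.LA.Nbxc
import Pool.Agent.H65.ORD.Rz
import Pool.Agent.H68.OWN.Ne
import Pool.Agent.H34.GEN.DiaA
import Pool.Agent.H45.EXA.ExvB

/-!
# Labels of fixed degree

`lb_step`: closed labels of a fixed degree from positions only and from one reference label.
`lbc_part`: a part of each event with labels of a universal degree for a chain and its target.
`lbc_ext`: a subclass in which such labels exist on all events, at countably many windows.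
-/

set_option autoImplicit false

namespace Pool.V0F

open Finset Real MvPolynomial
open Pool.Agent.H49.Ent Pool.Agent.H32.Dense Pool.STK Pool.KA Pool.KSAT Pool.K2S Pool.PB Pool.GEN
open Pool.S6C Pool.RCD Pool.LA91 Pool.OWN68
open Pool.GRD (LbP gr_cls)
open Pool.GRW (bas_part)
open Pool.ORD65 (LbS rz_cls)
open Pool.D2R (BalD EvB)
open Pool.CHT (chsys TmH)
open Pool.ISO (lvN)

variable {m : ℕ}

/-- **Reference labels**, the gradients at most `2 ^ ((E + e) J)`. -/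
def AttR (S : PCl m) (I : Finset (Fin m)) (k : Fin m) (w p r E : ℝ) : Prop :=
  ∀ e : ℝ, 0 < e → ∃ K : ℕ, Bas S (fun J F A =>
    Lb F I k K ⌊(E + e) * J⌋₊ J ⌊w * J⌋₊ ⌊(r + e) * J⌋₊ ⌊(p - e) * J⌋₊ A)

/-- **One place.** -/
theorem lb_step {S : PCl m} {C₀ : ℝ} (hC₀ : 0 ≤ C₀) (htm : TmC S C₀)
    (hpos : ∀ (τ : ℝ) (J : ℕ) (F : Fam m J) (A : F.Ω → Prop), S.St τ J F A → 0 < Pe F.p A)
    {I : Finset (Fin m)} {k : Fin m} {w u p₂ rk E : ℝ} (hw : 0 ≤ w) (hwu : w ≤ u) (hu : u < 1)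
    (hful : Ful S I w u) (hatt : AttR S I k w p₂ rk E) (hp₂ : u ≤ p₂ + E) (hE : 0 ≤ E)
    (D : ℕ) {p : ℝ} (hp : u ≤ p + E) {e : ℝ} (he : 0 < e) (hep : e ≤ p) (hep₂ : e ≤ p₂) :
    Bas S (fun J F A => ∀ (P₁ : ℕ) (V : Type) (z : PtT F → V) (z' : LnT F → V)
      (G : V → MvPolynomial (Option (Fin m)) ℝ), LbP F I k D J ⌊w * J⌋₊ P₁ A z z' G →
      (p - e / 8) * J ≤ P₁ → ∃ B : F.Ω → Prop, Sub B A ∧ Pe F.p A ≤ 16 * Pe F.p B ∧
        LbOK F I k D ⌊(E + e) * J⌋₊ J ⌊w * J⌋₊ ⌊u * J⌋₊ ⌊(p - e) * J⌋₊ B z z' G) := by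
  classical
  obtain ⟨η, hη⟩ : ∃ η : ℝ, η = e / 8 := ⟨_, rfl⟩
  have hη0 : 0 < η := by rw [hη]; linarith
  have hηe : e = 8 * η := by rw [hη]; ring
  obtain ⟨K₂, hK₂⟩ := hatt η hη0
  have hrz := rz_cls hC₀ hpos (Pool.GEN.N34.tm_sub34 hC₀ htm) I k hwu (hw.trans hwu) hu hful K₂ hη0
  have hgr := gr_cls hC₀ hpos (Pool.GEN.N34.tm_sub34 hC₀ htm) I k hwu (hw.trans hwu) hu hful
    (max D K₂) hη0
  obtain ⟨J₁, hJ₁⟩ := exists_nat_ge (2 / η)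
  refine (hK₂.and (hrz.and (bas_part hgr (c := 4) (by norm_num)))).mono J₁ ?_
  rintro J hJ F A ⟨⟨V₂, z₂, z₂', G₂, h2⟩, hrz, hgr⟩ P₁ V z z' G hG hP₁
  have hJ0 : (0 : ℝ) ≤ J := Nat.cast_nonneg J
  have hJ1 : 2 ≤ η * J := by
    have h1 : (J₁ : ℝ) ≤ J := by exact_mod_cast hJ
    have h2 := hJ₁.trans h1
    rw [div_le_iff₀ hη0] at h2
    linarith
  have f1 : ∀ x : ℝ, 0 ≤ x → (⌊x * J⌋₊ : ℝ) ≤ x * J := fun x hx =>
    Nat.floor_le (mul_nonneg hx hJ0)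
  have f2 : ∀ x : ℝ, x * J - 1 < ⌊x * J⌋₊ := fun x => Nat.sub_one_lt_floor _
  -- the reference label at the radius `u`
  obtain ⟨B₁, hB₁A, hB₁P, h3⟩ := hrz ⌊(p₂ - η) * J⌋₊ ⌊(p₂ - 3 * η) * J⌋₊ ⌊(E + 3 * η) * J⌋₊
    ⌊(E + η) * J⌋₊ V₂ z₂ z₂' G₂ (LbS.of h2) (by
      have g1 := f1 (p₂ - 3 * η) (by linarith)
      have g2 := f2 (p₂ - η)
      nlinarith) (by
      have g1 := f1 (E + η) (by linarith)
      have g2 := f2 (E + 3 * η)
      nlinarith)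
  obtain ⟨B, hBB, hBP, h4⟩ := hgr B₁ hB₁A (by linarith) P₁ ⌊(p - e) * J⌋₊ ⌊(E + e) * J⌋₊
    ⌊(E + 3 * η) * J⌋₊ ⌊u * J⌋₊ ⌊(p₂ - 3 * η) * J⌋₊ V V₂ z z' G z₂ z₂' G₂
    ((hG.sub hB₁A).mono (Finset.Subset.refl _) (le_max_left _ _) le_rfl)
    (h3.mono (Finset.Subset.refl _) (le_max_right _ _) le_rfl le_rfl le_rfl) le_rfl (by
      have g1 := f1 (p - e) (by linarith)
      nlinarith) (by
      have g1 := f2 (E + e)
      nlinarith) (by
      have g1 := f2 (E + e)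
      have g2 := f2 (p₂ - 3 * η)
      nlinarith) (by
      have g1 := f2 (E + e)
      have g2 := f1 (E + 3 * η) (by linarith)
      nlinarith)
  refine ⟨B, fun ω hω => hB₁A ω (hBB ω hω), by linarith,
    ⟨hG.deg, h4.dep, h4.cls, h4.pos, h4.vel, h4.lip⟩⟩

/-- **Labels of a chain and its target**, the gradients at most `2 ^ ((E i + e) J)`. -/
def LbE {J : ℕ} (F : Fam m J) (c : ℕ → Fin m) (n K : ℕ) (E : ℕ → ℝ) (e w : ℝ) (rd p : ℕ → ℝ)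
    (A : F.Ω → Prop) {V : Type} (z : PtT F → V) (z' : LnT F → V)
    (g : V → ℕ → MvPolynomial (Option (Fin m)) ℝ) : Prop :=
  ∀ i < n, LbOK F ((range i).image c) (c i) K ⌊(E i + e) * J⌋₊ J ⌊w * J⌋₊
    ⌊(rd i + e) * J⌋₊ ⌊(p i - e) * J⌋₊ A z z' (fun v => g v i)

theorem LbE.sub {J : ℕ} {F : Fam m J} {c : ℕ → Fin m} {n K : ℕ} {E : ℕ → ℝ} {e w : ℝ}
    {rd p : ℕ → ℝ} {A B : F.Ω → Prop} {V : Type} {z : PtT F → V} {z' : LnT F → V}
    {g : V → ℕ → MvPolynomial (Option (Fin m)) ℝ} (h : LbE F c n K E e w rd p A z z' g)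
    (hB : Sub B A) : LbE F c n K E e w rd p B z z' g := fun i hi => (h i hi).sub hB

theorem LbE.mono {J : ℕ} {F : Fam m J} {c : ℕ → Fin m} {n K : ℕ} {E E' : ℕ → ℝ} {e e' w : ℝ}
    {rd rd' p : ℕ → ℝ} {A : F.Ω → Prop} {V : Type} {z : PtT F → V} {z' : LnT F → V}
    {g : V → ℕ → MvPolynomial (Option (Fin m)) ℝ} (h : LbE F c n K E e w rd p A z z' g)
    (hE : ∀ i < n, E i + e ≤ E' i + e') (hr : ∀ i < n, rd i + e ≤ rd' i + e') (he : e ≤ e') :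
    LbE F c n K E' e' w rd' p A z z' g := by
  intro i hi
  have hJ0 : (0 : ℝ) ≤ J := Nat.cast_nonneg J
  refine (h i hi).mono (Finset.Subset.refl _) le_rfl ?_ ?_ ?_
  · exact Nat.floor_le_floor (mul_le_mul_of_nonneg_right (hE i hi) hJ0)
  · exact Nat.floor_le_floor (mul_le_mul_of_nonneg_right (hr i hi) hJ0)
  · exact Nat.floor_le_floor (mul_le_mul_of_nonneg_right (by linarith) hJ0)

/-- Small gradients: the labels of a chain. -/
theorem LbE.lbC {J : ℕ} {F : Fam m J} {c : ℕ → Fin m} {n K : ℕ} {E : ℕ → ℝ} {e w : ℝ}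
    {rd p : ℕ → ℝ} {A : F.Ω → Prop} {V : Type} {z : PtT F → V} {z' : LnT F → V}
    {g : V → ℕ → MvPolynomial (Option (Fin m)) ℝ} (h : LbE F c n K E e w rd p A z z' g)
    (hE : ∀ i < n, E i = 0) : LbC F c 0 n K e w rd p A z z' g := by
  intro i _ hi
  have h1 := h i hi
  rw [hE i hi, zero_add] at h1
  exact h1

/-- **The data for labels of fixed degree** at the window `w`. -/
structure LbD (S : PCl m) (P : List (Fin m) × Fin m → ℝ → ℝ → ℝ) (θ : ℝ) (c : ℕ → Fin m) (r : ℕ)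
    (Pt : ℝ → ℝ → ℝ) (S₀ : ℕ) (Eb w : ℝ) (u E : ℕ → ℝ) : Prop where
  bal : ∃ a, BalD S P θ c r Pt a w S₀ Eb
  ref : ∀ i ≤ r, ∃ rk p₂ : ℝ, 0 < p₂ ∧ u i ≤ p₂ + E i ∧
    AttR S ((range i).image c) (c i) w p₂ rk (E i)
  ful : ∀ i ≤ r, Ful S ((range i).image c) w (u i)
  wu : ∀ i ≤ r, w ≤ u i
  u1 : ∀ i ≤ r, u i < 1
  E0 : ∀ i ≤ r, 0 ≤ E i
  pu : ∀ i ≤ r, u i ≤ lvN P c r Pt i w w + E i
  pp : ∀ i ≤ r, 0 < lvN P c r Pt i w w

/-- **All places.** -/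
theorem lb_all {S : PCl m} {C₀ : ℝ} (hC₀ : 0 ≤ C₀) (htm : TmC S C₀)
    (hpos : ∀ (τ : ℝ) (J : ℕ) (F : Fam m J) (A : F.Ω → Prop), S.St τ J F A → 0 < Pe F.p A)
    {c : ℕ → Fin m} {w : ℝ} {u p E : ℕ → ℝ} (hw : 0 ≤ w) (D n : ℕ)
    (href : ∀ i < n, ∃ rk p₂ : ℝ, 0 < p₂ ∧ u i ≤ p₂ + E i ∧
      AttR S ((range i).image c) (c i) w p₂ rk (E i))
    (hful : ∀ i < n, Ful S ((range i).image c) w (u i)) (hwu : ∀ i < n, w ≤ u i)
    (hu1 : ∀ i < n, u i < 1) (hE0 : ∀ i < n, 0 ≤ E i) (hpu : ∀ i < n, u i ≤ p i + E i)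
    (hpp : ∀ i < n, 0 < p i) : ∃ e₀ : ℝ, 0 < e₀ ∧ ∀ e : ℝ, 0 < e → e ≤ e₀ →
    Bas S (fun J F A => ∀ (P₁ : ℕ → ℕ) (V : Type) (z : PtT F → V) (z' : LnT F → V)
      (g : V → ℕ → MvPolynomial (Option (Fin m)) ℝ),
      (∀ i < n, LbP F ((range i).image c) (c i) D J ⌊w * J⌋₊ (P₁ i) A z z' (fun v => g v i)) →
      (∀ i < n, (p i - e / 8) * J ≤ P₁ i) → ∃ B : F.Ω → Prop, Sub B A ∧
        Pe F.p A ≤ 16 ^ n * Pe F.p B ∧ LbE F c n D E e w u p B z z' g) := by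
  induction n with
  | zero =>
    refine ⟨1, one_pos, fun e _ _ => ⟨1, one_pos, 0, fun J _ F A _ P₁ V z z' g _ _ =>
      ⟨A, fun _ hω => hω, by rw [pow_zero, one_mul], fun i hi => absurd hi (Nat.not_lt_zero i)⟩⟩⟩
  | succ n ih =>
    obtain ⟨e₀, he₀, IH⟩ := ih (fun i hi => href i (by omega)) (fun i hi => hful i (by omega))
      (fun i hi => hwu i (by omega)) (fun i hi => hu1 i (by omega))
      (fun i hi => hE0 i (by omega)) (fun i hi => hpu i (by omega))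
      (fun i hi => hpp i (by omega))
    obtain ⟨rk, p₂, hp₂, hup₂, hatt⟩ := href n (Nat.lt_succ_self n)
    have hn := Nat.lt_succ_self n
    refine ⟨min e₀ (min (p n) p₂), lt_min he₀ (lt_min (hpp n hn) hp₂), fun e he hle => ?_⟩
    have hl0 : e ≤ e₀ := hle.trans (min_le_left _ _)
    have hl1 : e ≤ p n := hle.trans ((min_le_right _ _).trans (min_le_left _ _))
    have hl2 : e ≤ p₂ := hle.trans ((min_le_right _ _).trans (min_le_right _ _))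
    have hst := lb_step hC₀ htm hpos hw (hwu n hn) (hu1 n hn) (hful n hn) hatt hup₂ (hE0 n hn) D
      (hpu n hn) he hl1 hl2
    refine ((IH e he hl0).and (bas_part hst (c := (16 : ℝ) ^ n) (by positivity))).mono 0 ?_
    rintro J - F A ⟨h1, h2⟩ P₁ V z z' g hlb hP₁
    have hJ0 : (0 : ℝ) ≤ J := Nat.cast_nonneg J
    obtain ⟨B₁, hB₁, hP1, hL⟩ := h1 P₁ V z z' g (fun i hi => hlb i (by omega))
      (fun i hi => hP₁ i (by omega))
    obtain ⟨B, hB, hP2, hL2⟩ := h2 B₁ hB₁ hP1 (P₁ n) V z z' (fun v => g v n)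
      ((hlb n hn).sub hB₁) (hP₁ n hn)
    refine ⟨B, fun ω hω => hB₁ ω (hB ω hω), ?_, fun i hi => ?_⟩
    · rw [pow_succ]
      nlinarith [pow_pos (show (0 : ℝ) < 16 by norm_num) n]
    · rcases Nat.lt_succ_iff_lt_or_eq.1 hi with h3 | rfl
      · exact (hL i h3).sub hB
      · refine hL2.mono (Finset.Subset.refl _) le_rfl le_rfl ?_ le_rfl
        exact Nat.floor_le_floor (mul_le_mul_of_nonneg_right (by linarith) hJ0)

/-- **A part of each event with labels of a universal degree.** -/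
theorem lbc_part (m r S₀ : ℕ) (hr : 1 ≤ r) (hS₀ : 1 ≤ S₀) : ∃ D : ℕ, 1 ≤ D ∧
    ∀ {S : PCl m} {P : List (Fin m) × Fin m → ℝ → ℝ → ℝ} {θ C₀ : ℝ} {c : ℕ → Fin m}
    {Pt : ℝ → ℝ → ℝ} {Eb w : ℝ} {u E : ℕ → ℝ}, Pool.LBT.ThrOf (chsys m θ) S P → 0 < θ → TmH S →
    0 ≤ C₀ → TmC S C₀ → Set.InjOn c (Set.Iio (r + 1)) → Pool.LEV.Law Pt →
    LbD S P θ c r Pt S₀ Eb w u E → ∀ e : ℝ, 0 < e → ∃ K : ℝ, Bas S (fun J F A =>
      ∃ B : F.Ω → Prop, Sub B A ∧ Pe F.p A ≤ K * Pe F.p B ∧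
        ∃ (V : Type) (z : PtT F → V) (z' : LnT F → V)
          (g : V → ℕ → MvPolynomial (Option (Fin m)) ℝ),
          LbE F c (r + 1) D E e w u (fun l => lvN P c r Pt l w w) B z z' g) := by
  classical
  obtain ⟨D, hD, hball⟩ := Pool.D2R.ball_win m r S₀ hr hS₀
  refine ⟨D, hD, ?_⟩
  intro S P θ C₀ c Pt Eb w u E hP hθ hS hC₀ htm hinj hPt hd e he
  obtain ⟨a, hbal⟩ := hd.bal
  obtain ⟨ρ, vs, e₁, e₀, E₁, sg, Q, hpt, hEb⟩ := hbal.dw
  have hw0 := hpt.w0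
  have hwa := hbal.lt
  obtain ⟨e₂, he₂, hall⟩ := lb_all (p := fun l => lvN P c r Pt l w w) hC₀ htm hS.1 hw0.le D
    (r + 1) (fun i hi => hd.ref i (by omega)) (fun i hi => hd.ful i (by omega))
    (fun i hi => hd.wu i (by omega)) (fun i hi => hd.u1 i (by omega))
    (fun i hi => hd.E0 i (by omega)) (fun i hi => hd.pu i (by omega))
    (fun i hi => hd.pp i (by omega))
  obtain ⟨e', he'⟩ : ∃ e' : ℝ, e' = min e e₂ := ⟨_, rfl⟩
  have he'0 : 0 < e' := by rw [he']; exact lt_min he he₂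
  have he'1 : e' ≤ e := by rw [he']; exact min_le_left _ _
  have he'2 : e' ≤ e₂ := by rw [he']; exact min_le_right _ _
  obtain ⟨K₁, μ, b, hK₁, -, -, hB⟩ := hball 0 hP hθ hS hinj hPt hwa hpt hEb
    (fun l hl => by have := hbal.top l hl; linarith) 1 (e' / 8) ((a - w) / 2) 0 one_pos
    (by linarith) (by linarith)
  obtain ⟨J₁, hJ₁⟩ := exists_nat_ge (2 / ((a - w) / 2))
  refine ⟨K₁ * 16 ^ (r + 1), ((hB 1 one_pos).and (bas_part (hall e' he'0 he'2) hK₁)).mono J₁ ?_⟩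
  rintro J hJ F A ⟨hb, hl⟩
  have hJ0 : (0 : ℝ) ≤ J := Nat.cast_nonneg J
  have hJ1 : 2 ≤ (a - w) / 2 * J := by
    have h1 : (J₁ : ℝ) ≤ J := by exact_mod_cast hJ
    have h2 := hJ₁.trans h1
    rw [div_le_iff₀ (by linarith)] at h2
    linarith
  have f1 : (⌊w * J⌋₊ : ℝ) ≤ w * J := Nat.floor_le (mul_nonneg hw0.le hJ0)
  have f2 : a * J - 1 < ⌊a * J⌋₊ := Nat.sub_one_lt_floor _
  have f3 : ⌊w * J⌋₊ ≤ ⌊a * J⌋₊ := Nat.floor_le_floor (mul_le_mul_of_nonneg_right hwa.le hJ0)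
  obtain ⟨B₀, g₀, G₀, H₀, hB₀, hPB₀, hg₀, hev⟩ := hb (fun _ => ⌊a * J⌋₊ - ⌊w * J⌋₊)
    fun i _ => ⟨by
      rw [Nat.cast_sub f3]
      nlinarith, le_rfl⟩
  have hch := hev.ball
  obtain ⟨V, hV⟩ : ∃ V : Type, V = {v : ℕ → MvPolynomial (Option (Fin m)) ℝ //
      ∀ i, (v i).totalDegree ≤ D ∧ DepC c i (v i)} := ⟨_, rfl⟩
  subst hV
  have hlb := hl B₀ hB₀ hPB₀ g₀
    {v : ℕ → MvPolynomial (Option (Fin m)) ℝ // ∀ i, (v i).totalDegree ≤ D ∧ DepC c i (v i)}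
    (fun y => ⟨fun i => if i < r + 1 then G₀ y i else 0, fun i => by
      by_cases hi : i < r + 1
      · simp only [if_pos hi]
        exact ⟨hch.degG y i, hch.depG y i⟩
      · simp only [if_neg hi]
        exact ⟨by simp, fun _ _ _ _ => by simp⟩⟩)
    (fun s => ⟨fun i => if i < r + 1 then H₀ s i else 0, fun i => by
      by_cases hi : i < r + 1
      · simp only [if_pos hi]
        exact ⟨hch.degH s i, hch.depH s i⟩
      · simp only [if_neg hi]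
        exact ⟨by simp, fun _ _ _ _ => by simp⟩⟩) (fun v => v.1) (fun i hi => ?_)
    (fun i hi => (hg₀ i (by omega)).1)
  · obtain ⟨B, hBB, hPB, hL⟩ := hlb
    refine ⟨B, fun ω hω => hB₀ ω (hBB ω hω), ?_, _, _, _, _, hL.mono (fun i _ => by linarith)
      (fun i _ => by linarith) he'1⟩
    rw [mul_assoc]
    exact hPB₀.trans (mul_le_mul_of_nonneg_left hPB hK₁.le)
  · have hcls : ∀ ω, B₀ ω → (fun i => if i < r + 1 then G₀ (ptr F J ω) i else 0) =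
        fun i => if i < r + 1 then H₀ (slam F ⌊w * J⌋₊ ω) i else 0 := by
      intro ω hω
      funext i'
      by_cases hi' : i' < r + 1
      · simp only [if_pos hi']
        exact hev.cls ω hω i' hi'
      · simp only [if_neg hi']
    refine ⟨fun v => (v.2 i).1, fun v b b' h0 h1 => (v.2 i).2 b b' h0 fun l hl' =>
      h1 _ (mem_image_of_mem _ (mem_range.2 hl')), fun ω hω => Subtype.ext (hcls ω hω),
      fun ω hω => ?_⟩
    have h1 := hch.pos ω hω i hi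
    show |F.x ω (c i) - eval (bt F ω) (if i < r + 1 then H₀ (slam F ⌊w * J⌋₊ ω) i else 0)| ≤ _
    rw [if_pos hi, ← hev.cls ω hω i hi]
    exact h1

/-- **Labels of a universal degree in a subclass**, at countably many windows. -/
theorem lbc_ext (m r S₀ : ℕ) (hr : 1 ≤ r) (hS₀ : 1 ≤ S₀) : ∃ D : ℕ, 1 ≤ D ∧
    ∀ {S : PCl m} {P : List (Fin m) × Fin m → ℝ → ℝ → ℝ} {θ C₀ : ℝ} {c : ℕ → Fin m}
    {Pt : ℝ → ℝ → ℝ} {Eb : ℝ} {ι : Type} [Countable ι] {w : ι → ℝ} {u E : ι → ℕ → ℝ},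
    S.Ne → Pool.LBT.ThrOf (chsys m θ) S P → 0 < θ → TmH S →
    0 ≤ C₀ → TmC S C₀ → Set.InjOn c (Set.Iio (r + 1)) → Pool.LEV.Law Pt →
    (∀ k, LbD S P θ c r Pt S₀ Eb (w k) (u k) (E k)) → ∃ S' : PCl m, S'.Ne ∧
      (∀ (τ : ℝ) (J : ℕ) (F : Fam m J) (A : F.Ω → Prop), S'.St τ J F A → S.St τ J F A) ∧
      ∀ k, ∀ e : ℝ, 0 < e → Bas S' (fun J F A => ∃ (V : Type) (z : PtT F → V) (z' : LnT F → V)
        (g : V → ℕ → MvPolynomial (Option (Fin m)) ℝ),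
        LbE F c (r + 1) D (E k) e (w k) (u k) (fun l => lvN P c r Pt l (w k) (w k)) A z z' g) := by
  obtain ⟨D, hD, hpart⟩ := lbc_part m r S₀ hr hS₀
  refine ⟨D, hD, ?_⟩
  intro S P θ C₀ c Pt Eb ι _ w u E hNe hP hθ hS hC₀ htm hinj hPt hd
  obtain ⟨S', h1, h2, h3⟩ := her_extc hNe (ι := ι × ℕ) (fun i J F A =>
      ∃ (V : Type) (z : PtT F → V) (z' : LnT F → V) (g : V → ℕ → MvPolynomial (Option (Fin m)) ℝ),
        LbE F c (r + 1) D (E i.1) (1 / ((i.2 : ℝ) + 1)) (w i.1) (u i.1)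
          (fun l => lvN P c r Pt l (w i.1) (w i.1)) A z z' g) (by
      rintro i J F A B hB ⟨V, z, z', g, h⟩
      exact ⟨V, z, z', g, h.sub hB⟩)
    (fun i => hpart hP hθ hS hC₀ htm hinj hPt (hd i.1) _ (by positivity))
  refine ⟨S', h1, h2, fun k e he => ?_⟩
  obtain ⟨n, hn⟩ := exists_nat_one_div_lt he
  refine (h3 (k, n)).mono 0 ?_
  rintro J - F A ⟨V, z, z', g, h⟩
  exact ⟨V, z, z', g, h.mono (fun i _ => by linarith) (fun i _ => by linarith) hn.le⟩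

theorem AttR.of {S : PCl m} {I : Finset (Fin m)} {k : Fin m} {w p rk E : ℝ}
    (h : Att S I k w p rk) (hE : 0 ≤ E) : AttR S I k w p rk E := by
  intro e he
  obtain ⟨K, hK⟩ := h e he
  refine ⟨K, hK.mono 0 ?_⟩
  rintro J - F A ⟨V, z, z', G, h⟩
  exact ⟨V, z, z', G, h.mono (Finset.Subset.refl _) le_rfl (Nat.floor_le_floor
    (mul_le_mul_of_nonneg_right (by linarith) (Nat.cast_nonneg J))) le_rfl le_rfl⟩

theorem AttR.mono {S : PCl m} {I : Finset (Fin m)} {k : Fin m} {w p rk E E' : ℝ}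
    (h : AttR S I k w p rk E) (hE : E ≤ E') : AttR S I k w p rk E' := by
  intro e he
  obtain ⟨K, hK⟩ := h e he
  refine ⟨K, hK.mono 0 ?_⟩
  rintro J - F A ⟨V, z, z', G, h⟩
  exact ⟨V, z, z', G, h.mono (Finset.Subset.refl _) le_rfl (Nat.floor_le_floor
    (mul_le_mul_of_nonneg_right (by linarith) (Nat.cast_nonneg J))) le_rfl le_rfl⟩

/-- **The data from a chain and a reference label of the target**; the exponent `E ≥ 1`, the radius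
is `u₁`. -/
theorem LbD.of {S : PCl m} {P : List (Fin m) × Fin m → ℝ → ℝ → ℝ} {θ : ℝ} {c : ℕ → Fin m} {r : ℕ}
    {Pt : ℝ → ℝ → ℝ} {S₀ : ℕ} {Eb a w u₀ u₁ E rk p₂ : ℝ} {s rd : ℕ → ℝ}
    (hb : BalD S P θ c r Pt a w S₀ Eb) (hc : Chn S c 0 r w u₀ u₁ s rd)
    (hs : ∀ i < r, 0 < s i) (hp₂ : 0 < p₂) (ht : AttR S ((range r).image c) (c r) w p₂ rk E)
    (hE : 1 ≤ E) (hpp : ∀ i ≤ r, 0 < lvN P c r Pt i w w) :
    LbD S P θ c r Pt S₀ Eb w (fun _ => u₁) (fun _ => E) where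
  bal := ⟨a, hb⟩
  ref := by
    intro i hi
    rcases Nat.lt_or_ge i r with h1 | h1
    · exact ⟨rd i, s i, hs i h1, by linarith [hs i h1, hc.u1], AttR.of (hc.att i (Nat.zero_le i) h1)
        (by linarith)⟩
    · obtain rfl : i = r := by omega
      exact ⟨rk, p₂, hp₂, by linarith [hc.u1], ht⟩
  ful := fun i hi => hc.pre i (Nat.zero_le i) hi
  wu := fun _ _ => hc.wu1
  u1 := fun _ _ => hc.u1
  E0 := fun _ _ => by linarith
  pu := fun i hi => by linarith [hc.u1, hpp i hi]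
  pp := hpp

end Pool.V0F
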