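import Pool.Agent.H23.D2.Bwj
import Pool.Agent.H99.GEN.Gr

/-!
# Windows with balls only, in a class

`winb_con`: finitely many ball windows on one event, over `WinB`, of any degree at least a universal
one. `WinB.res`, `WinB.deg`: smaller events, a larger degree. `winb_lbp`: the charts are labels.
-/

set_option autoImplicit false

namespace Pool.D2R

open Finset Real MvPolynomial
open Pool.Agent.H49.Ent Pool.Agent.H32.Dense Pool.STK Pool.KA Pool.KSAT Pool.K2S Pool.PB Pool.S6C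
open Pool.GEN Pool.CHT Pool.CHX Pool.ISO
open Pool.LBT (LSys Slo Tri ThrOf fl_le' bas_false)
open Pool.LEV (Law)
open Pool.FLF (Fam.sub)
open Pool.JTN (TgP)
open Pool.GRD (LbP)

section

variable {m J : ℕ} {F : Fam m J} {c : ℕ → Fin m} {r D Dr N M : ℕ}
    {C₀ a Eb ηm : ℝ} {o η σ : ℕ → ℝ} {lv b : ℕ → ℕ → ℝ} {κ : ℝ} {z : ℕ → ℕ → ℕ}
    {B : F.Ω → Prop} {g₀ : ℕ → ℕ → ℕ}
    {G : ℕ → PtT F → ℕ → MvPolynomial (Option (Fin m)) ℝ}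
    {H : ℕ → LnT F → ℕ → MvPolynomial (Option (Fin m)) ℝ}

/-- A larger degree. -/
theorem WinB.deg (W : WinB F c r D Dr N M C₀ a Eb ηm o η σ lv b κ z B g₀ G H) {D' : ℕ}
    (hD : D ≤ D') : WinB F c r D' Dr N M C₀ a Eb ηm o η σ lv b κ z B g₀ G H where
  C1 := W.C1
  Eb0 := W.Eb0
  hη := W.hη
  hσ := W.hσ
  ho := W.ho
  hb := W.hb
  sds := W.sds
  ev := fun k hk => EvB.deg (W.ev k hk) hD
  bal := W.bal

/-- Smaller events. -/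
theorem WinB.res (W : WinB F c r D Dr N M C₀ a Eb ηm o η σ lv b κ z B g₀ G H)
    {B' : F.Ω → Prop} {κ₁ κ₂ : ℝ} (hB : Sub B' B) (hP : κ₁ * Pe F.p B ≤ Pe F.p B')
    (h2 : 0 ≤ κ₂) (hκ : κ ≤ κ₂ * κ₁) :
    WinB F c r D Dr N M C₀ a Eb ηm o η σ lv b κ₂ z B' g₀ G H where
  C1 := W.C1
  Eb0 := W.Eb0
  hη := W.hη
  hσ := W.hσ
  ho := W.ho
  hb := W.hb
  sds := W.sds
  ev := fun k hk => (W.ev k hk).sub hB hP h2 hκ
  bal := fun k hk k' hk' q hq h1 h2 ω hω => W.bal k hk k' hk' q hq h1 h2 ω (hB ω hω)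

/-- **The charts are labels.** -/
theorem winb_lbp (W : WinB F c r D Dr N M C₀ a Eb ηm o η σ lv b κ z B g₀ G H) {k l : ℕ}
    (hk : k ≤ N) (hl : l ≤ r) : LbP F ((range l).image c) (c l) D J ⌊o k * J⌋₊ (g₀ k l) B
      (V := {p : MvPolynomial (Option (Fin m)) ℝ // p.totalDegree ≤ D ∧ DepC c l p})
      (fun y => ⟨G k y l, (W.ev k hk).ball.degG y l, (W.ev k hk).ball.depG y l⟩)
      (fun s => ⟨H k s l, (W.ev k hk).ball.degH s l, (W.ev k hk).ball.depH s l⟩)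
      (fun v => v.1) where
  deg := fun v => v.2.1
  dep := fun v b b' hn hb => v.2.2 b b' hn fun l' hl' => hb _ (mem_image_of_mem _
    (mem_range.2 hl'))
  cls := fun ω hω => Subtype.ext ((W.ev k hk).cls ω hω l (by omega))
  pos := fun ω hω => by
    have h1 := (W.ev k hk).ball.pos ω hω l (by omega)
    rw [(W.ev k hk).cls ω hω l (by omega)] at h1
    exact h1

end

/-- **Finitely many ball windows on one event**, in a class. -/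
theorem winb_con (m r S₀ : ℕ) (hr : 1 ≤ r) (hS₀ : 1 ≤ S₀) : ∃ D₀ : ℕ, 1 ≤ D₀ ∧
    ∀ D : ℕ, D₀ ≤ D → ∀ Dr : ℕ, D ≤ Dr → ∃ CB : ℝ, 1 ≤ CB ∧
    ∀ {S : PCl m} {P : List (Fin m) × Fin m → ℝ → ℝ → ℝ} {θ : ℝ}
    {c : ℕ → Fin m} {Pt : ℝ → ℝ → ℝ} {a Eb ηm : ℝ} {o η σ r₀ : ℕ → ℝ}
    (N M : ℕ), ThrOf (chsys m θ) S P → 0 < θ → TmH S →
    Set.InjOn c (Set.Iio (r + 1)) → Law Pt → 0 ≤ Eb →
    (∀ k ≤ N, BalD S P θ c r Pt a (o k) S₀ Eb) →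
    (∀ k ≤ N, 0 < η k ∧ 0 < σ k ∧ σ k ≤ ηm ∧ 0 < r₀ k ∧ η k ≤ ηm) →
    ∃ (K₁ : ℝ) (b : ℕ → ℕ → ℝ), 0 < K₁ ∧
      ∀ κ : ℝ, 0 < κ → Bas S (fun J F A => ∀ z : ℕ → ℕ → ℕ,
        (∀ k ≤ N, ∀ i ≤ M, r₀ k * J ≤ z k i ∧ z k i ≤ ⌊a * J⌋₊ - ⌊o k * J⌋₊) →
        ∃ (B : F.Ω → Prop) (g₀ : ℕ → ℕ → ℕ)
          (G : ℕ → PtT F → ℕ → MvPolynomial (Option (Fin m)) ℝ)
          (H : ℕ → LnT F → ℕ → MvPolynomial (Option (Fin m)) ℝ), Sub B A ∧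
          Pe F.p A ≤ K₁ * Pe F.p B ∧
          WinB F c r D Dr N M CB a Eb ηm o η σ
            (fun k l => lvN P c r Pt l (o k) (o k)) b κ z B g₀ G H) := by
  classical
  obtain ⟨D₂, hD₂, hball⟩ := ball_list m r S₀ hr hS₀
  refine ⟨D₂, hD₂, fun D hDD Dr hDr => ?_⟩
  have hD0 : 1 ≤ D := hD₂.trans hDD
  obtain ⟨C₂, hC₂, hbal⟩ := balb_out D r hD0
  have hC₂R : (1 : ℝ) ≤ C₂ := by exact_mod_cast hC₂
  refine ⟨2 * C₂, by linarith, ?_⟩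
  intro S P θ c Pt a Eb ηm o η σ r₀ N M hP hθ hS hinj hPt hEb hWb hσ
  obtain ⟨K₃, hK₃, hbal⟩ := hbal N M
  have hK₃0 : 0 < K₃ := by linarith
  obtain ⟨L, hL⟩ : ∃ L : List ℕ, L = List.range (N + 1) := ⟨_, rfl⟩
  have hmem : ∀ k, k ∈ L ↔ k ≤ N := fun k => by
    rw [hL, List.mem_range]
    omega
  obtain ⟨K₂, μ₂, b, hK₂, hμ₂, hbas⟩ := hball Dr (η := η) (σ := σ) (r₀ := r₀) M hP hθ hS hinj
    hPt L (fun k hk => hWb k ((hmem k).1 hk))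
    (fun k hk => ⟨(hσ k ((hmem k).1 hk)).1, (hσ k ((hmem k).1 hk)).2.1,
      (hσ k ((hmem k).1 hk)).2.2.2.1⟩)
  have hηm0 : 0 < ηm := (hσ 0 (Nat.zero_le _)).1.trans_le (hσ 0 (Nat.zero_le _)).2.2.2.2
  have ho : ∀ k ≤ N, 0 < o k ∧ o k < 1 ∧ o k < a := fun k hk => by
    obtain ⟨ρ, vs, e, e₀, E, sg, Q, d1, -⟩ := (hWb k hk).dw
    exact ⟨d1.w0, d1.a1, (hWb k hk).lt⟩
  refine ⟨K₂ * K₃, b, mul_pos hK₂ hK₃0, fun κ hκ => ?_⟩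
  obtain ⟨κ₃, hκ₃⟩ : ∃ κ₃ : ℝ, κ₃ = min κ 1 / K₃ := ⟨_, rfl⟩
  have hκ₃0 : 0 < κ₃ := by rw [hκ₃]; exact div_pos (lt_min hκ one_pos) hK₃0
  have hκ₃1 : κ₃ * K₃ ≤ 1 := by
    rw [hκ₃, div_mul_cancel₀ _ hK₃0.ne']
    exact min_le_right _ _
  have hκ₃2 : κ₃ * K₃ ≤ κ := by
    rw [hκ₃, div_mul_cancel₀ _ hK₃0.ne']
    exact min_le_left _ _
  obtain ⟨J₁, hJ₁⟩ := exists_nat_gt (1 / ηm)
  refine Bas.mono J₁ (hbas κ₃ hκ₃0) ?_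
  rintro J hJ F A h1 z hz
  have hJ0 : (0 : ℝ) ≤ J := Nat.cast_nonneg J
  have hηJ : 1 ≤ ηm * J := by
    have h2 : 1 / ηm < J := hJ₁.trans_le (by exact_mod_cast hJ)
    rw [div_lt_iff₀ hηm0] at h2
    linarith
  have hp := Pe_nonneg F.isLaw
  obtain ⟨B₂, g₀, G, H, l1, l2, l3⟩ := h1 z fun k hk => hz k ((hmem k).1 hk)
  have hev : ∀ k ≤ N, EvB F c r D Dr ⌊o k * J⌋₊ M (z k) ⌊(Eb + σ k + η k) * J⌋₊ ⌊η k * J⌋₊
      (fun l => ⌊b k l * J⌋₊) (g₀ k) κ₃ B₂ (G k) (H k) := fun k hk =>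
    ((l3 k ((hmem k).2 hk)).2).deg hDD
  obtain ⟨B₃, n1, n2, n3⟩ := hbal (c := c) (Dr := Dr) (h := ⌊ηm * J⌋₊)
    (o := fun k => ⌊o k * J⌋₊) (e := fun k => ⌊(Eb + σ k + η k) * J⌋₊)
    (hh := fun k => ⌊η k * J⌋₊) (z := z) (g := fun k l => ⌊b k l * J⌋₊) (g₀ := g₀)
    (κ := fun _ => κ₃) (B := B₂) (G := G) (H := H)
    (hinj.mono fun y hy => by rw [Set.mem_Iio] at hy ⊢; omega) hDr (fun k hk => by
      have h5 : (⌊o k * J⌋₊ : ℝ) ≤ o k * J := Nat.floor_le (mul_nonneg (ho k hk).1.le hJ0)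
      have h6 : o k * (J : ℝ) ≤ 1 * J := mul_le_mul_of_nonneg_right (ho k hk).2.1.le hJ0
      have h7 : (⌊o k * J⌋₊ : ℝ) ≤ J := by linarith
      exact_mod_cast h7)
    (fun k hk => Nat.floor_le_floor (mul_le_mul_of_nonneg_right (hσ k hk).2.2.2.2 hJ0))
    (fun k _ => ⟨hκ₃0.le, hκ₃1⟩) hev
  have n2' : 1 / K₃ * Pe F.p B₂ ≤ Pe F.p B₃ := by
    rw [one_div, inv_mul_le_iff₀ hK₃0]
    exact n2
  have hκe : κ₃ ≤ κ * (1 / K₃) := by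
    rw [mul_one_div, le_div_iff₀ hK₃0]
    exact hκ₃2
  refine ⟨B₃, g₀, G, H, fun ω hω => l1 ω (n1 ω hω), ?_,
    ⟨by linarith, hEb, fun k hk => ⟨(hσ k hk).1.le,
      (hσ k hk).2.2.2.2⟩, fun k hk => ⟨(hσ k hk).2.1.le, (hσ k hk).2.2.1⟩,
      fun k hk => ⟨(ho k hk).1.le, (ho k hk).2.2.le⟩, fun k hk l hl => ⟨((hμ₂ k
        ((hmem k).2 hk)).2 l hl).1, by
        have := (hμ₂ k ((hmem k).2 hk)).1
        have := ((hμ₂ k ((hmem k).2 hk)).2 l hl).2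
        linarith⟩, fun k hk l hl => (l3 k ((hmem k).2 hk)).1 l hl,
      fun k hk => (hev k hk).sub n1 n2' hκ.le hκe,
      fun k hk k' hk' q hq hoo hz' ω hω l hl b' hb' => ?_⟩⟩
  · calc Pe F.p A ≤ K₂ * Pe F.p B₂ := l2
      _ ≤ K₂ * (K₃ * Pe F.p B₃) := mul_le_mul_of_nonneg_left n2 hK₂.le
      _ = _ := by ring
  · refine (n3 k hk k' hk' q hq hoo hz' ω hω l hl b' hb').trans
      (div_le_div_of_nonneg_right ?_ (by positivity))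
    refine pow_le_pow_right₀ (by norm_num) (Nat.le_floor ?_)
    push_cast
    have h5 : (⌊ηm * J⌋₊ : ℝ) ≤ ηm * J := Nat.floor_le (mul_nonneg hηm0.le hJ0)
    have h6 : (C₂ : ℝ) * (⌊ηm * J⌋₊ + 1) ≤ C₂ * (2 * (ηm * J)) :=
      mul_le_mul_of_nonneg_left (by linarith) (by linarith)
    linarith

end Pool.D2R
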