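import Pool.Agent.H3.D2G.RecG

/-!
# The record of a subclass

`RecG.sub`: the record of a class is a record of its nonempty subclasses.
-/

set_option autoImplicit false

namespace Pool.PKG

open Pool.Agent.H49.Ent Pool.Agent.H32.Dense Pool.STK Pool.KA Pool.KSAT Pool.K2S Pool.PB
open Pool.GEN Pool.S6C Pool.STAT Pool.CHT Pool.GRW Pool.ONE Pool.STA
open Pool.LBT (LSys ThrOf)
open Pool.LEV (Law)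
open Pool.ALL (RateOf)
open Pool.TOP (TopS)
open Pool.ISO (PtD PtN lvN WinD)

variable {m : ℕ} {S S' : PCl m}

theorem tgP_sub {c : ℕ → Fin m} {r : ℕ} {P₀ a w sg : ℝ} (h : Pool.JTN.TgP S c r P₀ a w sg)
    (hs : ∀ (τ : ℝ) (J : ℕ) (F : Fam m J) (A : F.Ω → Prop), S'.St τ J F A → S.St τ J F A) :
    Pool.JTN.TgP S' c r P₀ a w sg := by
  intro ε hε
  obtain ⟨K', K₁, hK₁, h1⟩ := h ε hε
  exact ⟨K', K₁, hK₁, h1.sub hs⟩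

theorem pts_sub {P : List (Fin m) × Fin m → ℝ → ℝ → ℝ} {θ : ℝ} {c : ℕ → Fin m} {r N : ℕ}
    {a w : ℕ → ℝ} {vs e₀ : ℝ} (h : Pts S P θ c r N a w vs e₀)
    (hs : ∀ (τ : ℝ) (J : ℕ) (F : Fam m J) (A : F.Ω → Prop), S'.St τ J F A → S.St τ J F A) :
    Pts S' P θ c r N a w vs e₀ :=
  ⟨h.pos, h.wa, h.lt, h.rc, h.vis, h.gre, h.srt, fun k hk => (h.rel k hk).sub hs⟩

theorem ptN_sub {P : List (Fin m) × Fin m → ℝ → ℝ → ℝ} {θ : ℝ} {c : ℕ → Fin m} {r : ℕ}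
    {Pt : ℝ → ℝ → ℝ} {x y vs e e₀ E sg : ℝ} (h : PtN S P θ c r Pt x y vs e e₀ E sg)
    (hs : ∀ (τ : ℝ) (J : ℕ) (F : Fam m J) (A : F.Ω → Prop), S'.St τ J F A → S.St τ J F A) :
    PtN S' P θ c r Pt x y vs e e₀ E sg :=
  ⟨pts_sub h.pts hs, h.vs0, h.e1, h.e2, h.E1, h.E2, tgP_sub h.tg hs, h.low, h.lt⟩

theorem ptD_sub {P : List (Fin m) × Fin m → ℝ → ℝ → ℝ} {θ : ℝ} {c : ℕ → Fin m} {r : ℕ}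
    {Pt : ℝ → ℝ → ℝ} {a w ρ : ℝ} {S₀ : ℕ} {vs e e₀ E sg : ℝ → ℝ} {Q : Set ℝ}
    (h : PtD S P θ c r Pt a w ρ S₀ vs e e₀ E sg Q)
    (hs : ∀ (τ : ℝ) (J : ℕ) (F : Fam m J) (A : F.Ω → Prop), S'.St τ J F A → S.St τ J F A) :
    PtD S' P θ c r Pt a w ρ S₀ vs e e₀ E sg Q :=
  ⟨h.ρ0, h.ρw, h.wa, h.a1, h.q0, h.den, fun κ hκ h0 h1 => ptN_sub (h.pt κ hκ h0 h1) hs, h.grw,
    h.sr⟩

theorem PtI.sub {P : List (Fin m) × Fin m → ℝ → ℝ → ℝ} {θ : ℝ} {c : ℕ → Fin m} {r : ℕ}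
    {Pt : ℝ → ℝ → ℝ} {S₀ : ℕ} {Eb a w : ℝ} (h : PtI S P θ c r Pt S₀ Eb a w)
    (hs : ∀ (τ : ℝ) (J : ℕ) (F : Fam m J) (A : F.Ω → Prop), S'.St τ J F A → S.St τ J F A) :
    PtI S' P θ c r Pt S₀ Eb a w := by
  obtain ⟨ρ, vs, e, e₀, E, sg, Q, h1, h2, h3⟩ := h
  exact ⟨ρ, vs, e, e₀, E, sg, Q, ptD_sub h1 hs, h2, h3⟩

/-- **The record of one target in a subclass.** -/
theorem RecT.sub {P P₂ : List (Fin m) × Fin m → ℝ → ℝ → ℝ} {θ θ₂ : ℝ}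
    {c : ℕ → Fin m} {l : ℕ} {L : ℕ → ℝ → ℝ → ℝ} {S₀ N : ℕ} {A V : ℕ → ℝ} {S₂ N' : ℕ}
    {V' : ℕ → ℝ} {Eb e₂ K q t : ℝ}
    (h : RecT S P P₂ θ θ₂ c l L S₀ N A V S₂ N' V' Eb e₂ K q t)
    (hs : ∀ (τ : ℝ) (J : ℕ) (F : Fam m J) (A : F.Ω → Prop), S'.St τ J F A → S.St τ J F A) :
    RecT S' P P₂ θ θ₂ c l L S₀ N A V S₂ N' V' Eb e₂ K q t :=
  ⟨h.thr₂.sub hs, h.th₂0, h.Eb0, h.Ebe, h.eθ, h.room,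
    fun k hk => ⟨(h.pt k hk).1.sub hs, (h.pt k hk).2.sub hs⟩, h.rat,
    fun k hk => (h.ptc k hk).sub hs, h.ratc⟩

/-- **The record in a subclass.** -/
theorem RecG.sub {al : ℝ} {g₀ : ℝ → ℝ} {P : List (Fin m) × Fin m → ℝ → ℝ → ℝ}
    {θ : ℝ} {P₂ : ℕ → List (Fin m) × Fin m → ℝ → ℝ → ℝ} {θ₂ Eb e₂ : ℕ → ℝ}
    {c : ℕ → Fin m} {Pt : ℝ → ℝ → ℝ} {r : ℝ → ℝ} {h K₀ g : ℝ} {L T : ℕ → ℝ → ℝ → ℝ}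
    {Sl : ℕ → ℝ} {κ : ℕ → Kg} {G : Set ℝ} {S₀ N : ℕ} {A V : ℕ → ℝ} {S₂ N' : ℕ} {V' : ℕ → ℝ}
    {K ε q t : ℝ}
    (R : RecG S al g₀ P θ P₂ θ₂ Eb e₂ c Pt r h K₀ g L T Sl κ G S₀ N A V S₂ N' V' K ε q t)
    (hne : S'.Ne)
    (hs : ∀ (τ : ℝ) (J : ℕ) (F : Fam m J) (A : F.Ω → Prop), S'.St τ J F A → S.St τ J F A) :
    RecG S' al g₀ P θ P₂ θ₂ Eb e₂ c Pt r h K₀ g L T Sl κ G S₀ N A V S₂ N' V' K ε q t := by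
  refine ⟨hne, R.al0, R.g₀pos, ?_, R.thr.sub hs, R.th0, R.tgs.sub hs, R.rate.sub hs, R.inj, R.c0,
    R.law, R.lv, R.lawL, R.q0, R.t0, R.t1, R.near, R.memG, R.TL, R.TLc, R.dL, R.dT, R.s0, R.l0,
    R.kd, R.row, fun l h1 h2 => (R.tg l h1 h2).sub hs, R.tgl⟩
  obtain ⟨s, d, e, K₁, N₁, hC⟩ := R.clx
  exact ⟨s, d, e, K₁, N₁, hC.sub hne hs⟩

end Pool.PKG
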