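import Pool.Agent.H73.D2.Tlr

/-!
# A subclass in which hereditary properties hold

`her_ext`: if each event of a class has a large part with a hereditary property, for countably many
properties, then there is a nonempty subclass in which all of them hold on all events.
-/

set_option autoImplicit false

namespace Pool.V0F

open Finset Real
open Pool.Agent.H49.Ent Pool.Agent.H32.Dense Pool.STK Pool.KA Pool.KSAT Pool.K2S Pool.PB Pool.GEN
open Pool.S6C

variable {m : ℕ}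

/-- **A subclass in which hereditary properties hold.** -/
theorem her_ext {S : PCl m} (hS : S.Ne) (Φ : ℕ → Stat m)
    (hher : ∀ (i J : ℕ) (F : Fam m J) (A B : F.Ω → Prop), Sub B A → Φ i J F A → Φ i J F B)
    (h : ∀ i, ∃ K : ℝ, Bas S (fun J F A => ∃ B : F.Ω → Prop, Sub B A ∧
      Pe F.p A ≤ K * Pe F.p B ∧ Φ i J F B)) :
    ∃ S' : PCl m, S'.Ne ∧
      (∀ (τ : ℝ) (J : ℕ) (F : Fam m J) (A : F.Ω → Prop), S'.St τ J F A → S.St τ J F A) ∧
      ∀ i, Bas S' (Φ i) := by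
  have key : ∀ k : ℕ, ∀ τ : ℝ, 0 < τ → ∀ N : ℕ, ∃ J ≥ N, ∃ (F : Fam m J) (A : F.Ω → Prop),
      S.St τ J F A ∧ ∀ i < k, Φ i J F A := by
    intro k
    induction k with
    | zero =>
      intro τ hτ N
      obtain ⟨J, hJ, F, A, hA⟩ := hS τ hτ N
      exact ⟨J, hJ, F, A, hA, fun i hi => absurd hi (Nat.not_lt_zero i)⟩
    | succ k ih =>
      intro τ hτ N
      obtain ⟨K, τ₁, hτ₁, J₁, h1⟩ := h k
      obtain ⟨τ', hτ'⟩ : ∃ τ' : ℝ, τ' = min (τ / 2) τ₁ := ⟨_, rfl⟩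
      have hτ'0 : 0 < τ' := by rw [hτ']; exact lt_min (by linarith) hτ₁
      have hτ'1 : τ' ≤ τ / 2 := by rw [hτ']; exact min_le_left _ _
      have hτ'2 : τ' ≤ τ₁ := by rw [hτ']; exact min_le_right _ _
      obtain ⟨J₂, hJ₂⟩ := exists_nat_ge (Real.log (max K 1) / τ')
      obtain ⟨J, hJ, F, A, hA, hΦ⟩ := ih τ' hτ'0 (max N (max J₁ J₂))
      obtain ⟨B, hBA, hB, hΦB⟩ := h1 J (((le_max_left _ _).trans (le_max_right _ _)).trans hJ) F A
        (S.mono hτ'2 hA)
      refine ⟨J, (le_max_left _ _).trans hJ, F, B, ?_, fun i hi => ?_⟩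
      · have h0 : (0 : ℝ) < max K 1 := lt_max_of_lt_right one_pos
        have h2 : Real.log (max K 1) ≤ τ' * J := by
          have h2 : Real.log (max K 1) / τ' ≤ J := hJ₂.trans (by
            exact_mod_cast ((le_max_right _ _).trans (le_max_right _ _)).trans hJ)
          rw [div_le_iff₀ hτ'0] at h2
          linarith
        have h3 : max K 1 ≤ Real.exp (τ' * J) := by
          rw [← Real.log_le_iff_le_exp h0]
          exact h2
        have hB0 : 0 ≤ Pe F.p B := Pe_nonneg F.isLaw B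
        have h4 : Real.exp (-(τ' * J)) * Pe F.p A ≤ Pe F.p B := by
          rw [Real.exp_neg]
          rw [inv_mul_le_iff₀ (Real.exp_pos _)]
          refine hB.trans ?_
          exact mul_le_mul_of_nonneg_right ((le_max_left _ _).trans h3) hB0
        exact S.mono (by linarith) (S.res hτ'0.le hA hBA h4)
      · rcases Nat.lt_succ_iff_lt_or_eq.1 hi with h2 | rfl
        · exact hher i J F A B hBA (hΦ i h2)
        · exact hΦB
  have hk : ∀ k N : ℕ, ∃ J : ℕ, N ≤ J ∧ ∃ (F : Fam m J) (A : F.Ω → Prop),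
      S.St (1 / ((k : ℝ) + 1)) J F A ∧ ∀ i < k, Φ i J F A := fun k N => by
    obtain ⟨J, hJ, h1⟩ := key k (1 / ((k : ℝ) + 1)) (by positivity) N
    exact ⟨J, hJ, h1⟩
  choose g hg1 hg2 using hk
  obtain ⟨f, hf⟩ : ∃ f : ℕ → ℕ, f = fun k => Nat.rec (g 0 0) (fun k y => g (k + 1) (y + 1)) k :=
    ⟨_, rfl⟩
  have hf0 : f 0 = g 0 0 := by
    rw [hf]
    rfl
  have hfs : ∀ k, f (k + 1) = g (k + 1) (f k + 1) := fun k => by rw [hf]
  have hmono : StrictMono f := strictMono_nat_of_lt_succ fun k => by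
    rw [hfs]
    have := hg1 (k + 1) (f k + 1)
    omega
  have hfJ : ∀ k, ∃ (F : Fam m (f k)) (A : F.Ω → Prop),
      S.St (1 / ((k : ℝ) + 1)) (f k) F A ∧ ∀ i < k, Φ i (f k) F A := fun k => by
    rcases k with _ | k
    · rw [hf0]
      exact hg2 0 0
    · rw [hfs]
      exact hg2 (k + 1) (f k + 1)
  refine ⟨{ St := fun τ J F A => S.St τ J F A ∧ ∀ i, f (i + 1) ≤ J → Φ i J F A
            mono := fun h1 h2 => ⟨S.mono h1 h2.1, h2.2⟩
            res := fun h1 h2 h3 h4 => ⟨S.res h1 h2.1 h3 h4, fun i hi =>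
              hher i _ _ _ _ h3 (h2.2 i hi)⟩ }, fun τ hτ J₁ => ?_, fun τ J F A h1 => h1.1,
    fun i => ⟨1, one_pos, f (i + 1), fun J hJ F A h1 => h1.2 i hJ⟩⟩
  obtain ⟨k₁, hk₁⟩ := exists_nat_one_div_lt hτ
  obtain ⟨F, A, hA, hΦ⟩ := hfJ (max k₁ J₁)
  refine ⟨f (max k₁ J₁), (le_max_right k₁ J₁).trans hmono.le_apply, F, A,
    ⟨S.mono ?_ hA, fun i hi => hΦ i ?_⟩⟩
  · refine le_trans ?_ hk₁.le
    have h1 : (k₁ : ℝ) ≤ (max k₁ J₁ : ℕ) := by exact_mod_cast le_max_left k₁ J₁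
    exact one_div_le_one_div_of_le (by positivity) (by linarith)
  · have := hmono.le_iff_le.1 hi
    omega

/-- **A subclass in which countably many hereditary properties hold.** -/
theorem her_extc {ι : Type} [Countable ι] {S : PCl m} (hS : S.Ne) (Φ : ι → Stat m)
    (hher : ∀ (i : ι) (J : ℕ) (F : Fam m J) (A B : F.Ω → Prop), Sub B A → Φ i J F A → Φ i J F B)
    (h : ∀ i, ∃ K : ℝ, Bas S (fun J F A => ∃ B : F.Ω → Prop, Sub B A ∧
      Pe F.p A ≤ K * Pe F.p B ∧ Φ i J F B)) :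
    ∃ S' : PCl m, S'.Ne ∧
      (∀ (τ : ℝ) (J : ℕ) (F : Fam m J) (A : F.Ω → Prop), S'.St τ J F A → S.St τ J F A) ∧
      ∀ i, Bas S' (Φ i) := by
  rcases isEmpty_or_nonempty ι with hι | hι
  · exact ⟨S, hS, fun _ _ _ _ h => h, fun i => hι.elim i⟩
  · obtain ⟨f, hf⟩ := exists_surjective_nat ι
    obtain ⟨S', h1, h2, h3⟩ := her_ext hS (fun i => Φ (f i)) (fun i => hher (f i))
      (fun i => h (f i))
    refine ⟨S', h1, h2, fun i => ?_⟩
    obtain ⟨j, rfl⟩ := hf i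
    exact h3 j

end Pool.V0F
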