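import Pool.Agent.H92.V0F.Vsd
import Pool.Agent.H3.V0F.Nla
import Pool.Agent.H92.D2.Ceg
import Pool.Agent.H44.V0F.Vcl

/-!
# The numbers of the class theorem from a record

The windows `t + (k / M₀ - cb) q` of a fine chain, the levels, the rows, the free velocities and the
no look-ahead at one scale, from the record and from the properties of the windows.
-/

set_option autoImplicit false

namespace Pool.V0F

open Finset Real MvPolynomial
open Pool.Agent.H49.Ent Pool.Agent.H32.Dense Pool.STK Pool.KA Pool.KSAT Pool.K2S Pool.PB Pool.GEN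
open Pool.S6C Pool.RCD Pool.LA91 Pool.OWN68 Pool.PKG
open Pool.D2R (BalD)
open Pool.CHT (chsys TmH)
open Pool.ISO (lvN)

/-- The windows of the fine chain. -/
noncomputable def chV (M₀ cb : ℕ) (k : ℕ) : ℝ := (k : ℝ) / M₀ - cb

theorem chV_nb {M₀ cb : ℕ} (hM : 1 ≤ M₀) (k : ℕ) : chV M₀ cb (cb * M₀ + k) = (k : ℝ) / M₀ := by
  unfold chV
  have h0 : (0 : ℝ) < M₀ := by exact_mod_cast hM
  push_cast
  field_simp
  ring

theorem chV_zero (M₀ cb : ℕ) : chV M₀ cb 0 = -cb := by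
  unfold chV
  simp

theorem chV_mid {M₀ cb : ℕ} (hM : 1 ≤ M₀) : chV M₀ cb (cb * M₀) = 0 := by
  have := chV_nb (cb := cb) hM 0
  simpa using this

theorem chV_succ {M₀ cb : ℕ} (k : ℕ) : chV M₀ cb (k + 1) = chV M₀ cb k + 1 / M₀ := by
  unfold chV
  push_cast
  ring

theorem chV_mono {M₀ cb k l : ℕ} (h : k ≤ l) : chV M₀ cb k ≤ chV M₀ cb l := by
  unfold chV
  have : (k : ℝ) ≤ l := by exact_mod_cast h
  have h1 : (k : ℝ) / M₀ ≤ l / M₀ := div_le_div_of_nonneg_right this (Nat.cast_nonneg _)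
  linarith

theorem chV_top {M₀ cb co : ℕ} (hM : 1 ≤ M₀) : chV M₀ cb ((cb + co) * M₀) = co := by
  have h0 : (0 : ℝ) < M₀ := by exact_mod_cast hM
  have := chV_nb (cb := cb) hM (co * M₀)
  rw [← add_mul] at this
  rw [this]
  push_cast
  field_simp

theorem chV_abs {M₀ cb co k : ℕ} (hM : 1 ≤ M₀) (hk : k < (cb + co) * M₀ + 1) :
    |chV M₀ cb k| ≤ cb + co := by
  have h1 := chV_mono (M₀ := M₀) (cb := cb) (Nat.zero_le k)
  have h2 := chV_mono (M₀ := M₀) (cb := cb) (show k ≤ (cb + co) * M₀ by omega)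
  rw [chV_zero] at h1
  rw [chV_top hM] at h2
  have h3 : (0 : ℝ) ≤ cb := Nat.cast_nonneg _
  have h4 : (0 : ℝ) ≤ co := Nat.cast_nonneg _
  rw [abs_le]
  constructor <;> linarith

/-- A window of the chain before each point. -/
theorem grid_near {M₀ cb co : ℕ} (hM : 1 ≤ M₀) {t q x : ℝ} (hq : 0 < q) (h1 : t - cb * q ≤ x)
    (h2 : x ≤ t + co * q) : ∃ k < (cb + co) * M₀ + 1, t + chV M₀ cb k * q ≤ x ∧
      x ≤ t + chV M₀ cb k * q + q / M₀ := by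
  have h0 : (0 : ℝ) < M₀ := by exact_mod_cast hM
  obtain ⟨y, hy⟩ : ∃ y : ℝ, y = (x - (t - cb * q)) / q * M₀ := ⟨_, rfl⟩
  have hy0 : 0 ≤ y := by
    rw [hy]
    have : 0 ≤ x - (t - cb * q) := by linarith
    positivity
  have hyx : x = t - cb * q + y * (q / M₀) := by
    rw [hy]
    field_simp
    ring
  have hy1 : y ≤ (cb + co) * M₀ := by
    rw [hy]
    refine mul_le_mul_of_nonneg_right ?_ h0.le
    rw [div_le_iff₀ hq]
    linarith
  have e1 : ∀ k : ℕ, t + chV M₀ cb k * q = t - cb * q + k * (q / M₀) := fun k => by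
    unfold chV
    ring
  have hqM : 0 < q / M₀ := by positivity
  refine ⟨⌊y⌋₊, ?_, ?_, ?_⟩
  · have : ⌊y⌋₊ ≤ (cb + co) * M₀ := Nat.floor_le_of_le (by exact_mod_cast hy1)
    omega
  · rw [e1, hyx]
    have := mul_le_mul_of_nonneg_right (Nat.floor_le hy0) hqM.le
    linarith
  · rw [e1, hyx]
    have := mul_le_mul_of_nonneg_right (Nat.lt_floor_add_one y).le hqM.le
    linarith

section

variable {r : ℕ} {S : PCl (r + 1)} {al : ℝ} {g₀ : ℝ → ℝ}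
  {P : List (Fin (r + 1)) × Fin (r + 1) → ℝ → ℝ → ℝ}
  {θ : ℝ} {P₂ : ℕ → List (Fin (r + 1)) × Fin (r + 1) → ℝ → ℝ → ℝ} {θ₂ Eb e₂ : ℕ → ℝ}
  {c : ℕ → Fin (r + 1)} {Pt : ℝ → ℝ → ℝ} {rt : ℝ → ℝ} {h K₀ g : ℝ} {L T : ℕ → ℝ → ℝ → ℝ}
  {Sl : ℕ → ℝ} {κ : ℕ → Kg} {G : Set ℝ} {S₀ N : ℕ} {A V : ℕ → ℝ} {S₂ N' : ℕ} {V' : ℕ → ℝ}
  {K ε q t : ℝ}
  (R : RecG S al g₀ P θ P₂ θ₂ Eb e₂ c Pt rt h K₀ g L T Sl κ G S₀ N A V S₂ N' V' K ε q t)
include R

/-- The levels are above the windows. -/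
theorem rec_low {l : ℕ} (hl : l ≤ r) {x : ℝ} (hx0 : 0 ≤ x) (hx1 : x ≤ 1) : x ≤ L l x x := by
  rcases Nat.lt_or_ge l r with h1 | h1
  · rw [R.lv_lt (l := l) (by omega)]
    exact R.thr.low _ _ _ hx0 le_rfl hx1
  · obtain rfl : l = r := by omega
    have h2 : L (l + 1 - 1) = Pt := R.lv_last (by omega)
    have h3 : L l = Pt := h2
    rw [h3]
    exact R.tgs.low () _ _ hx0 le_rfl hx1

/-- All the coordinates but the last one. -/
theorem rec_img : (range r).image c = univ.erase (c r) := by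
  have hinj := R.inj
  have h1 : (range r).image c ⊆ univ.erase (c r) := by
    intro j hj
    obtain ⟨l, hl, rfl⟩ := mem_image.1 hj
    have hl' := mem_range.1 hl
    refine mem_erase.2 ⟨fun h2 => ?_, mem_univ _⟩
    have := hinj (show l ∈ Set.Iio (r + 1) from Set.mem_Iio.2 (by omega))
      (show r ∈ Set.Iio (r + 1) from Set.mem_Iio.2 (by omega)) h2
    omega
  refine Finset.eq_of_subset_of_card_le h1 ?_
  rw [card_erase_of_mem (mem_univ _), card_univ, Fintype.card_fin,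
    card_image_of_injOn, card_range]
  · omega
  · intro a ha b hb hab
    have ha' := mem_range.1 (mem_coe.1 ha)
    have hb' := mem_range.1 (mem_coe.1 hb)
    exact hinj (Set.mem_Iio.2 (by omega)) (Set.mem_Iio.2 (by omega)) hab

/-- The levels of slope one. -/
theorem rec_one (hSl : ∀ l < r, Sl l = 1) {l : ℕ} (hl : l < r) {x : ℝ} (hx : |x - t| ≤ K * q) :
    |(L l x x - x) - (L l t t - t)| ≤ ε * q := by
  have h1 := R.dL l (by omega) x hx
  rw [hSl l hl, one_mul] at h1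
  have e : L l x x - L l t t - (x - t) = (L l x x - x) - (L l t t - t) := by ring
  rwa [e] at h1

/-- The rows. -/
theorem rec_rows (hr : 1 ≤ r) (hε : 0 < ε) {Λ φ P₁ P₂' : ℝ} (hΛ : 0 ≤ Λ) (hΛK : Λ ≤ K)
    (hK : 1 ≤ K) (hφ : ε * q < φ) (h1 : |P₁ - L r t t| ≤ Λ * q) (h2 : |P₂' - L r t t| ≤ Λ * q)
    (h12 : P₁ ≤ P₂') (hlow : Λ * q ≤ L r t t) :
    RawN S (univ.erase (c r)) (c r) P₁ (P₂' - P₁) h φ := by
  have W := R.tg r hr (by omega)
  have hq := R.q0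
  have hKq : 0 < K * q := by positivity
  have hΛq : Λ * q ≤ K * q := mul_le_mul_of_nonneg_right hΛK hq.le
  have hroom := W.room r le_rfl t (by rw [sub_self, abs_zero]; exact hKq.le)
  have hEb := W.Eb0
  have hεq : 0 < ε * q := mul_pos hε hq
  have a1 := abs_le.1 h1
  have a2 := abs_le.1 h2
  refine rawN_of R.tmc R.rate (δ := ε * q) (by linarith [a1.1]) (by linarith [a2.2])
    (fun z hz0 hzy => ?_) hεq.le hφ
  have h3 := R.row (P₁ + z) (P₁ + (P₂' - P₁)) (by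
    show |P₁ + z - L r t t| ≤ K * q
    rw [abs_le]
    constructor <;> linarith [a1.1, a1.2, a2.1, a2.2]) (by
    show |P₁ + (P₂' - P₁) - L r t t| ≤ K * q
    rw [abs_le]
    constructor <;> linarith [a1.1, a1.2, a2.1, a2.2]) (by linarith)
  have e1 : P₁ + (P₂' - P₁) - (P₁ + z) = P₂' - P₁ - z := by ring
  rw [e1] at h3
  exact h3

/-- The levels of the target continued from `G`. -/
theorem rec_lam {M₀ cb co : ℕ} (hM : 1 ≤ M₀) (hN' : N' = (cb + co) * M₀ + 1)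
    (hV' : ∀ k < N', V' k = chV M₀ cb k) (hcK : (cb : ℝ) + co + 1 ≤ K) (hs : 0 ≤ Sl r) {φ : ℝ}
    (hφ : ε * q + Sl r * (q / M₀) ≤ φ) {x : ℝ} (h1 : t - cb * q ≤ x) (h2 : x ≤ t + co * q) :
    |lh (L r) G x - L r t t - Sl r * (x - t)| ≤ φ := by
  have hq := R.q0
  have hM0 : (0 : ℝ) < M₀ := by exact_mod_cast hM
  have hM1 : (1 : ℝ) ≤ M₀ := by exact_mod_cast hM
  have ht0 := R.t0
  have ht1 := R.t1
  obtain ⟨k, hk, k1, k2⟩ := grid_near hM hq h1 h2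
  have hcb : (0 : ℝ) ≤ cb := Nat.cast_nonneg _
  have hco : (0 : ℝ) ≤ co := Nat.cast_nonneg _
  have hcbq : 0 ≤ cb * q := by positivity
  have hcoq : 0 ≤ co * q := by positivity
  have hKq : cb * q + co * q + q ≤ K * q := by
    have := mul_le_mul_of_nonneg_right hcK hq.le
    linarith
  have hqM : q / M₀ ≤ q := div_le_self hq.le hM1
  have hqM0 : 0 < q / M₀ := by positivity
  obtain ⟨v, hv⟩ : ∃ v, v = t + chV M₀ cb k * q := ⟨_, rfl⟩
  have hvG : v ∈ G := by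
    have h3 := R.memG.2 k (by omega)
    rw [hV' k (by omega)] at h3
    rw [hv]
    exact h3
  rw [← hv] at k1 k2
  have hv0 : 0 < v := by linarith
  have hv1 : v < 1 := by linarith
  obtain ⟨Z, hZ⟩ : ∃ Z : Set ℝ, Z = G ∩ Set.Ioo 0 1 ∩ Set.Iic x := ⟨_, rfl⟩
  have hvZ : v ∈ Z := by
    rw [hZ]
    exact ⟨⟨hvG, hv0, hv1⟩, k1⟩
  have hbdd : BddAbove Z := ⟨x, fun y hy => by
    rw [hZ] at hy
    exact hy.2⟩
  have hs1 : v ≤ sSup Z := le_csSup hbdd hvZ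
  have hs2 : sSup Z ≤ x := csSup_le ⟨v, hvZ⟩ fun y hy => by
    rw [hZ] at hy
    exact hy.2
  have e1 : lh (L r) G x = L r (sSup Z) (sSup Z) := by
    unfold lh
    rw [← hZ, if_pos ⟨v, hvZ⟩]
  rw [e1]
  have h3 := abs_le.1 (R.dL r (by omega) (sSup Z) (by
    rw [abs_le]
    constructor <;> linarith))
  have h4 : Sl r * (sSup Z - t) ≤ Sl r * (x - t) := mul_le_mul_of_nonneg_left (by linarith) hs
  have h5 : Sl r * (x - t) ≤ Sl r * (sSup Z - t) + Sl r * (q / M₀) := by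
    rw [← mul_add]
    exact mul_le_mul_of_nonneg_left (by linarith) hs
  have h6 : 0 ≤ Sl r * (q / M₀) := by positivity
  rw [abs_le]
  constructor <;> linarith [h3.1, h3.2]

end

/-- **Free velocities** from the property of a window. -/
theorem fri_of {m r : ℕ} {S : PCl m} {c : ℕ → Fin m} {sn : ℕ → ℝ → ℝ} {G : Set ℝ}
    {g b w₁ x' q φ₀ : ℝ} {C k : ℕ} {σ κ : ℝ} {σ' κ' : ℚ} {P : Fin r → ℚ}
    (hσ : (σ' : ℝ) = σ) (hκ : (κ' : ℝ) = κ) 
    (h : FreeAt S (fun J F => ptr F J) (fun _ F => F.W) c r sn G g C σ' κ k)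
    (hP : StG r sn g C σ' k P) (hb : b ∈ G) (hbg : g - C * (1 / 2) ^ k ≤ b)
    (hbw : b + lagG C r k ≤ w₁) (hwx : w₁ ≤ x') (hxg : x' ≤ g + lstG C r k)
    (hφ : κ * (1 / 2) ^ k ≤ φ₀ * q) :
    FrI S c r (fun i x => sn i x - σ / 20 * (1 / 2) ^ k) b (fun i => (P i : ℝ)) w₁ x'
      (φ₀ * q) := by
  obtain ⟨k₂, hk₂, e₀, he₀, H⟩ := h P b w₁ x' hP hb hbg hbw hwx hxg
  rw [hσ] at H
  refine ⟨k₂, hk₂, e₀, he₀, fun K => Bas.mono 0 (H K) ?_⟩
  intro J _ F A hA V z V' z' h1 h2 u hu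
  refine (hA V z V' z' h1 h2 u hu).trans ?_
  have hJ : (0 : ℝ) ≤ J := Nat.cast_nonneg J
  have := mul_le_mul_of_nonneg_right hφ hJ
  linarith

/-- **No look-ahead** from the property of a window. -/
theorem nli_of {m : ℕ} {S : PCl m} {k : Fin m} {Λ : ℝ → ℝ} {x ρ e w κ : ℝ}
    (h : NlaAt S k Λ x ρ e) {Λ₀ q : ℝ} (h1 : x - ρ ≤ w) (h2 : w + Λ₀ * q ≤ x + ρ)
    (hκ : e * ρ ≤ κ) {w₁ v y : ℚ} (hw : w ≤ w₁) (hv : w₁ ≤ v) (hy : v ≤ y)
    (hy1 : (y : ℝ) ≤ w + Λ₀ * q) : NlI S k w₁ v (Λ v) (Λ y) κ := by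
  obtain ⟨κ₁, hκ₁, H⟩ := h w₁ v y (by linarith) hv hy (by linarith)
  refine ⟨κ₁, hκ₁, Bas.mono 0 H ?_⟩
  intro J _ F A hA V z V' z' a1 a2
  refine (hA V z V' z' a1 a2).trans ?_
  have hJ : (0 : ℝ) ≤ J := Nat.cast_nonneg J
  have := mul_le_mul_of_nonneg_right hκ hJ
  linarith

end Pool.V0F
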