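import Pool.Agent.H92.V0F.Vsb
import Pool.Agent.H62.V0C.Cfb
import Pool.Agent.H23.D2.Adh

/-!
# The base coordinates over the charts of an earlier window: the class end

`V0Out`: the conclusion of the class theorem. `v0_clsEnd`: a class whose large events have it at the
windows `0`, `nb`, `nb + n` is empty (the closed gradient contradicts the threshold).
-/

set_option autoImplicit false

namespace Pool.V0F

open Finset Real MvPolynomial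
open Pool.Agent.H49.Ent Pool.Agent.H32.Dense Pool.STK Pool.KA Pool.KSAT Pool.K2S Pool.PB Pool.S6C
open Pool.GEN Pool.CHT Pool.CHX Pool.ISO Pool.D2R
open Pool.AJW (CfB)
open Pool.GRD (LbP)
open Pool.BFL (Pb)
open Pool.PB.Trl (rt)
open Pool.LBT (ThrOf)
open Pool.LA91 (Pb_cond)

variable {m : ℕ}

/-- The part of an event outside a bad event. -/
theorem good_half {J : ℕ} {F : Fam m J} {A Bad : F.Ω → Prop} (hA : 0 < Pe F.p A)
    (h : Pb (Pool.Agent.H49.Ent.cond F.p A True) Bad ≤ 1 / 2) :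
    Pe F.p A / 2 ≤ Pe F.p (fun ω => A ω ∧ ¬ Bad ω) := by
  classical
  have h1 : Pb (Pool.Agent.H49.Ent.cond F.p A True) Bad = Pe F.p (fun ω => A ω ∧ Bad ω) /
      Pe F.p A := Pb_cond hA Bad
  rw [h1, div_le_iff₀ hA] at h
  have h2 : Pe F.p A = Pe F.p (fun ω => A ω ∧ Bad ω) + Pe F.p (fun ω => A ω ∧ ¬ Bad ω) := by
    show law F.p A True = law F.p _ True + law F.p _ True
    unfold law
    rw [← Finset.sum_add_distrib]
    refine Finset.sum_congr rfl fun ω _ => ?_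
    by_cases h3 : A ω
    · by_cases h4 : Bad ω
      · simp [h3, h4]
      · simp [h3, h4]
    · simp [h3]
  linarith

/-- **The conclusion of the class theorem**: a closed gradient of the target over hybrid charts. -/
def V0Out {J : ℕ} (F : Fam m J) (c : ℕ → Fin m) (r D : ℕ) (w φ ι s₁ : ℝ) (A : F.Ω → Prop)
    (g : ℕ → ℕ) (Q G' : PtT F → ℕ → MvPolynomial (Option (Fin m)) ℝ) : Prop :=
  ∃ (W : ℕ) (mu : LnT F → ℕ → Polynomial ℝ), ⌊w * J⌋₊ ≤ W ∧ (W : ℝ) ≤ (w + 2 * φ) * J ∧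
    (∀ t i, (mu t i).natDegree ≤ D + 1) ∧
    (∀ ω, A ω → ∀ i < r, |gnh F c r g Q G' ω i| ≤ 2 ^ (ι * J)) ∧
    (∀ ω ν, A ω → A ν → ptr F J ω = ptr F J ν → ∀ i < r,
      |gnh F c r g Q G' ω i - gnh F c r g Q G' ν i| ≤ 2 ^ (-(s₁ * J))) ∧
    Pb (Pool.Agent.H49.Ent.cond F.p A True) (fun ω => ∃ i < r, (2 : ℝ) ^ (-(s₁ * J)) <
      |gnh F c r g Q G' ω i - (mu (slam F W ω) i).eval (rt F W ω)|) ≤ 1 / 2

/-- **The class end.** -/
theorem v0_clsEnd (m D r : ℕ) (hD : 1 ≤ D) : ∃ C : ℕ, 1 ≤ C ∧ ∀ {S : PCl m}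
    {P : List (Fin m) × Fin m → ℝ → ℝ → ℝ} {θ : ℝ} {c : ℕ → Fin m}
    {C₀ a' Eb ηm ζ : ℝ} {o η σ r₀ : ℕ → ℝ} {lv bb : ℕ → ℕ → ℝ} {Dr N nb n : ℕ} {a w : ℚ}
    {q₁ s₁ h h₂ e φ ι K₁ : ℝ} (zz : ℕ → ℕ → ℕ → ℕ), S.Ne → TmC S 6 →
    (∀ (τ : ℝ) (J : ℕ) (F : Fam m J) (A : F.Ω → Prop), S.St τ J F A → 0 < Pe F.p A) →
    ThrOf (chsys m θ) S P → TmH S → Set.InjOn c (Set.Iio (r + 1)) → D ≤ Dr →
    nb + n ≤ N → (∀ k < nb, o k ≤ o (k + 1)) → 0 < ζ → C * (C₀ * ηm) ≤ ζ →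
    (∀ k ≤ nb, ∀ l < r, C * |lv k l - o k - (lv nb l - o nb)| ≤ ζ) →
    (∀ k, k = nb ∨ k = nb + n → o k + C * ζ ≤ 1 ∧ ∀ l ≤ r, C * ζ ≤ lv k l ∧
      Eb + lv k l + C * ζ ≤ 1) → 0 ≤ o 0 → o 0 < 1 → 0 ≤ o nb → o nb < 1 →
    -- the numbers of the end
    o nb ≤ w → w ≤ o nb + ζ → 0 ≤ w → w ≤ a → a ≤ 1 → w < 1 → e < θ * w →
    0 < h → 0 ≤ h₂ → 0 ≤ q₁ → bet P c r a w + h ≤ 1 →
    Eb + C * ζ + 2 * h₂ ≤ e →
    bet P c r a w + h + C * ζ + 2 * h₂ ≤ lv nb r + s₁ + (a - w) →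
    bet P c r a w + h + C * ζ + 2 * h₂ ≤ lv (nb + n) r - (o (nb + n) - w) + (a - w) →
    bet P c r a w + h + C * ζ + 2 * h₂ + q₁ ≤ lv nb r + 2 * (a - w) → q₁ + C * ζ ≤ a - w →
    (∀ l ≤ r, Eb + lv nb l + 2 * (a - w) + C * ζ ≤ 1) →
    (∀ l ≤ r, Eb + lv nb l + max s₁ 0 + 2 * q₁ + C * ζ ≤ 1) →
    (∀ j < r, lv nb j ≤ lv nb r + ζ + h₂ ∨
      bet P c r a w + h ≤ lv nb r + (a - w) + ζ + h₂) →
    o nb + 2 * φ ≤ w → 0 < ι → ι < ζ → 0 < s₁ → 0 < K₁ →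
    -- the radii
    (∃ J₁ : ℕ, ∀ J ≥ J₁, (∀ k ≤ N, ∀ i ≤ 2, r₀ k * J ≤ zz J k i ∧
        zz J k i ≤ ⌊a' * J⌋₊ - ⌊o k * J⌋₊) ∧
      (∀ k < nb + n, zz J k 0 = ⌊o (k + 1) * J⌋₊ - ⌊o k * J⌋₊) ∧ (zz J nb 1 : ℝ) ≤ q₁ * J ∧
      2 * φ * J + 1 ≤ zz J nb 1 ∧ ⌊o nb * J⌋₊ + zz J nb 2 ≤ ⌊(a : ℝ) * J⌋₊ ∧
      (a : ℝ) * J ≤ ⌊o nb * J⌋₊ + zz J nb 2 + ζ * J + 2) →
    -- the windows
    (∀ κ : ℝ, 0 < κ → Bas S (fun J F A => ∀ z : ℕ → ℕ → ℕ,
      (∀ k ≤ N, ∀ i ≤ 2, r₀ k * J ≤ z k i ∧ z k i ≤ ⌊a' * J⌋₊ - ⌊o k * J⌋₊) →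
      ∃ (B : F.Ω → Prop) (g₀ : ℕ → ℕ → ℕ) (G : ℕ → PtT F → ℕ → MvPolynomial (Option (Fin m)) ℝ)
        (H : ℕ → LnT F → ℕ → MvPolynomial (Option (Fin m)) ℝ), Sub B A ∧
        Pe F.p A ≤ K₁ * Pe F.p B ∧
        WinB F c r D Dr N 2 C₀ a' Eb ηm o η σ lv bb κ z B g₀ G H)) →
    -- the class theorem
    Bas S (fun J F A => ∀ {κ : ℝ} {g₀ : ℕ → ℕ → ℕ}
      {Gc : ℕ → PtT F → ℕ → MvPolynomial (Option (Fin m)) ℝ}
      {H : ℕ → LnT F → ℕ → MvPolynomial (Option (Fin m)) ℝ},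
      WinB F c r D Dr N 2 C₀ a' Eb ηm o η σ lv bb κ (zz J) A g₀ Gc H →
      (∀ l < r, CfB F ⌊o 0 * J⌋₊ 1 (c l) A (fun s => s) (fun s => H 0 s l)) →
      CfB F ⌊o nb * J⌋₊ 1 (c r) A (fun s => s) (fun s => H nb s r) →
      V0Out F c r D (o nb) φ ι s₁ A (g₀ nb) (hyb Gc 0 nb r) (Gc (nb + n))) →
    False := by
  obtain ⟨Ca, hCa, had⟩ := ad_noG m (D + 1) D D r hD
  obtain ⟨Cr, hCr, hro⟩ := winb_rout m D r hD
  obtain ⟨Cn, hCn, hnear⟩ := v0_near D r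
  obtain ⟨C, hC⟩ : ∃ C : ℕ, C = ⌈Ca⌉₊ + Cr + 4 * Cn := ⟨_, rfl⟩
  have hCR : (C : ℝ) = ⌈Ca⌉₊ + Cr + 4 * Cn := by rw [hC]; push_cast; ring
  have hCaC : Ca ≤ C := by
    rw [hCR]
    have := Nat.le_ceil Ca
    have h1 : (0 : ℝ) ≤ Cr := Nat.cast_nonneg _
    have h2 : (0 : ℝ) ≤ Cn := Nat.cast_nonneg _
    linarith
  have hCr1 : (1 : ℝ) ≤ Cr := by exact_mod_cast hCr
  have hCn1 : (1 : ℝ) ≤ Cn := by exact_mod_cast hCn
  have hCrC : (Cr : ℝ) ≤ C := by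
    rw [hCR]
    have : (0 : ℝ) ≤ ⌈Ca⌉₊ := Nat.cast_nonneg _
    linarith
  have hCnC : 4 * (Cn : ℝ) ≤ C := by
    rw [hCR]
    have : (0 : ℝ) ≤ ⌈Ca⌉₊ := Nat.cast_nonneg _
    linarith
  have hC1 : (1 : ℝ) ≤ C := by linarith
  refine ⟨C, by omega, ?_⟩
  intro S P θ c C₀ a' Eb ηm ζ o η σ r₀ lv bb Dr N nb n a w q₁ s₁ h h₂ e φ ι K₁ zz hne htm hpos hP
    hT hc hDr hN hmo hζ hCη hsl hroom ho00 ho01 hob0 hob1 w1 w2 w3 w4 w5 w6 w7 hh hh₂ hq₁ hb1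
    hE1 g1 g2 g3 g4 g5 g6 g7 hφw hι hιζ hs₁ hK₁ hzz hwin hV
  have hCaζ : Ca * ζ ≤ C * ζ := mul_le_mul_of_nonneg_right hCaC hζ.le
  have hCrζ : ζ ≤ C * ζ := le_mul_of_one_le_left hζ.le hC1
  -- the exponent of the constants
  have hCη' : ∀ x : ℝ, 1 ≤ x → x ≤ C → x * (C₀ * ηm) ≤ ζ := by
    intro x h1 h2
    rcases le_or_gt (C₀ * ηm) 0 with h4 | h4
    · have : x * (C₀ * ηm) ≤ 0 := mul_nonpos_of_nonneg_of_nonpos (by linarith) h4
      linarith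
    · exact (mul_le_mul_of_nonneg_right h2 h4.le).trans hCη
  have hCη1 : C₀ * ηm ≤ ζ := by
    have := hCη' 1 le_rfl hC1
    rwa [one_mul] at this
  -- the outputs of the balls
  obtain ⟨ζr, hζr⟩ : ∃ ζr : ℝ, ζr = ζ / Cr := ⟨_, rfl⟩
  have hζr0 : 0 < ζr := by rw [hζr]; positivity
  have hζrC : Cr * ζr = ζ := by rw [hζr]; field_simp
  obtain ⟨κ', hκ', hro⟩ := hro (S := S) (c := c) (C₀ := C₀) (a := a') (Eb := Eb) (ηm := ηm)
    (ζ := ζr) (κ₀ := 1 / (4 * K₁)) (o := o) (η := η) (σ := σ) (lv := lv) (Dr := Dr) (N := N)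
    (M := 2) [nb, nb + n] hT hc hDr hζr0 (by positivity) (by
      rw [hζr, le_div_iff₀ (by positivity), mul_comm]
      exact hCη' _ hCr1 hCrC) (fun k hk => by
      have hk' : k = nb ∨ k = nb + n := by
        simpa using hk
      obtain ⟨a1, a2⟩ := hroom k hk'
      refine ⟨by omega, by rw [hζrC]; linarith, fun l hl => ⟨?_, ?_⟩⟩
      · rw [hζrC]
        linarith [(a2 l hl).1]
      · rw [hζrC]
        linarith [(a2 l hl).2])
  -- the closed gradient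
  obtain ⟨δ, hδ, had⟩ := had (S := S) (P := P) (θ := θ) (c := c) (C₀ := C₀) (a' := a') (Eb := Eb)
    (ηm := ηm) (ζ := ζ) (o := o) (η := η) (σ := σ) (lv := lv) (r := r) (Dr := Dr) (N := N)
    (M := 2) (k₀ := nb) (n := nb + n) (a := a) (w := w) (q₁ := q₁) (s₁ := s₁) (h := h) (h₂ := h₂)
    (e := e) hP hT hc le_rfl (by omega) hN w1 w2 w3 w4 w5 w6 w7 hh hh₂ hζ hCη1 hq₁ hb1
    (by linarith) (by linarith) (by linarith) (by linarith) (by linarith)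
    (fun l hl => by linarith [g5 l hl]) (fun l hl => by linarith [g6 l hl]) g7
  -- the bounded coefficients
  have hcf := Pool.V0C62.cfb_stmt htm hpos D (r + 1) (E := 1) (fun k => if k < r then o 0 else o nb)
    (fun k => (range k).image c) c one_pos (fun k _ => by
      by_cases hk : k < r
      · simp only [if_pos hk]
        exact ⟨ho00, ho01⟩
      · simp only [if_neg hk]
        exact ⟨hob0, hob1⟩)
  have hcf' := bas_ev hcf (κ := 1 / K₁) (by positivity)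
  have hV' := bas_ev hV (κ := 1 / (2 * K₁)) (by positivity)
  obtain ⟨J₁, hzz⟩ := hzz
  obtain ⟨J₂, hJ₂⟩ := exists_nat_gt (max (((nb : ℝ) + 4) / (ζ / (2 * Cn)))
    (max (2 / (ζ - ι)) (Real.log (32 ^ 2 * 4 * K₁ + 1) / δ)))
  refine Pool.LBT.bas_false hne (Φ := fun _ _ _ => False) ?_ ⟨1, one_pos, 0,
    fun _ _ _ _ _ h => h⟩
  refine Bas.mono (max (max J₁ J₂) 1) (((hwin κ' hκ').and (hcf'.and hV')).and (hro.and (had.and
    (Bas.mono 0 (Pool.GRW.tmc_bas htm one_pos) fun J _ F A h1 => h1.1)))) ?_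
  rintro J hJ F A ⟨⟨b1, b2, b3⟩, b4, b5, hA⟩
  have hJ1 : J₁ ≤ J := (le_max_left _ _).trans ((le_max_left _ _).trans hJ)
  have hJ2 : J₂ ≤ J := (le_max_right _ _).trans ((le_max_left _ _).trans hJ)
  have hJ3 : 1 ≤ J := (le_max_right _ _).trans hJ
  have hJ0 : (0 : ℝ) < J := by exact_mod_cast hJ3
  have hJ2R : (J₂ : ℝ) ≤ J := by exact_mod_cast hJ2
  have hp := Pe_nonneg F.isLaw
  have hK0 : 0 < K₁ := hK₁
  obtain ⟨z1, z2, z3, z4, z5, z6⟩ := hzz J hJ1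
  have hζι : 0 < ζ - ι := by linarith
  have j1 : ((nb : ℝ) + 4) ≤ ζ / (2 * Cn) * J := by
    have h1 := ((le_max_left _ _).trans_lt hJ₂).le.trans hJ2R
    rwa [div_le_iff₀ (by positivity), mul_comm] at h1
  have j2 : 2 ≤ (ζ - ι) * J := by
    have h1 := (((le_max_left _ _).trans (le_max_right _ _)).trans_lt hJ₂).le.trans hJ2R
    rwa [div_le_iff₀ hζι, mul_comm] at h1
  have j3 : Real.log (32 ^ 2 * 4 * K₁ + 1) < δ * J := by
    have h1 := (((le_max_right _ _).trans (le_max_right _ _)).trans_lt hJ₂).trans_le hJ2R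
    rw [div_lt_iff₀ hδ] at h1
    linarith
  -- the events
  obtain ⟨B₀, g₀, G, H, hB₀, hPB₀, W⟩ := b1 (zz J) z1
  have hPB₀' : 1 / K₁ * Pe F.p A ≤ Pe F.p B₀ := by
    rw [one_div, inv_mul_le_iff₀ hK0]
    exact hPB₀
  obtain ⟨B₁, hB₁, hPB₁, hcfB⟩ := b2 B₀ hB₀ hPB₀' (fun k => g₀ (if k < r then 0 else nb) k)
    (fun k => {p : MvPolynomial (Option (Fin m)) ℝ // p.totalDegree ≤ D ∧ DepC c k p})
    (fun k y => ⟨G (if k < r then 0 else nb) y k, (W.ev _ (by split_ifs <;> omega)).ball.degG y k,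
      (W.ev _ (by split_ifs <;> omega)).ball.depG y k⟩)
    (fun k s => ⟨H (if k < r then 0 else nb) s k, (W.ev _ (by split_ifs <;> omega)).ball.degH s k,
      (W.ev _ (by split_ifs <;> omega)).ball.depH s k⟩) (fun k v => v.1) (fun k hk => by
      by_cases hk' : k < r
      · have h1 := winb_lbp W (k := 0) (l := k) (by omega) (by omega)
        simp only [if_pos hk']
        exact h1
      · have h1 := winb_lbp W (k := nb) (l := k) (by omega) (by omega)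
        simp only [if_neg hk']
        exact h1)
  have hBA₁ : Sub B₁ A := fun ω hω => hB₀ ω (hB₁ ω hω)
  have hPB₁' : 1 / (2 * K₁) * Pe F.p A ≤ Pe F.p B₁ := by
    have h1 : 1 / (2 * K₁) * Pe F.p A = (1 / K₁ * Pe F.p A) / 2 := by
      field_simp
    rw [h1]
    linarith
  have hB₁0 : 0 < Pe F.p B₁ := lt_of_lt_of_le (by positivity) hPB₁'
  have W₁ : WinB F c r D Dr N 2 C₀ a' Eb ηm o η σ lv bb (2 * κ') (zz J) B₁ g₀ G H :=
    W.res (κ₁ := 1 / 2) hB₁ (by linarith) (by linarith) (by linarith)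
  obtain ⟨Wn, mu, m1, m2, m3, m4, m5, m6⟩ := b3 B₁ hBA₁ hPB₁' W₁ (fun l hl => by
    have h1 := hcfB l (by omega)
    simp only [if_pos hl] at h1
    exact h1) (by
    have h1 := hcfB r (by omega)
    simp only [if_neg (lt_irrefl r)] at h1
    exact h1)
  -- the good event
  have hgood := good_half hB₁0 m6
  obtain ⟨B₂, hB₂⟩ : ∃ B₂ : F.Ω → Prop, B₂ = fun ω => B₁ ω ∧ ¬ ∃ i < r,
      (2 : ℝ) ^ (-(s₁ * J)) < |gnh F c r (g₀ nb) (hyb G 0 nb r) (G (nb + n)) ω i -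
        (mu (slam F Wn ω) i).eval (rt F Wn ω)| := ⟨_, rfl⟩
  rw [← hB₂] at hgood
  have hB₂₁ : Sub B₂ B₁ := fun ω hω => by
    rw [hB₂] at hω
    exact hω.1
  have hPB₂ : 1 / (4 * K₁) * Pe F.p A ≤ Pe F.p B₂ := by
    have h1 : 1 / (4 * K₁) * Pe F.p A = (1 / (2 * K₁) * Pe F.p A) / 2 := by
      field_simp
      norm_num
    rw [h1]
    linarith
  obtain ⟨B₃, hB₃, hPB₃, hout⟩ := b4 (zz J) κ' bb B₀ g₀ G H B₂ W le_rfl hB₀
    (fun ω hω => hB₁ ω (hB₂₁ ω hω)) hPB₂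
  have hB₃₁ : Sub B₃ B₁ := fun ω hω => hB₂₁ ω (hB₃ ω hω)
  have hB₃₀ : Sub B₃ B₀ := fun ω hω => hB₁ ω (hB₃₁ ω hω)
  rw [hζrC] at hout
  have hsmall : ∀ ω, B₃ ω → ∀ j < r, |gnh F c r (g₀ nb) (hyb G 0 nb r) (G (nb + n)) ω j -
      (mu (slam F Wn ω) j).eval (rt F Wn ω)| ≤ 2 ^ (-(s₁ * J)) := by
    intro ω hω j hj
    have h1 := hB₃ ω hω
    rw [hB₂] at h1
    by_contra hcon
    exact h1.2 ⟨j, hj, lt_of_not_ge hcon⟩
  -- the numbers
  have hpw : (2 : ℝ) ^ (-(s₁ * J)) ≤ 2 ^ ⌊ζ * J⌋₊ / 2 ^ ⌊s₁ * J⌋₊ := by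
    have h1 : (2 : ℝ) ^ (-(s₁ * J)) ≤ 1 / 2 ^ ⌊s₁ * J⌋₊ := by
      rw [Real.rpow_neg two_pos.le, ← one_div]
      refine one_div_le_one_div_of_le (by positivity) ?_
      rw [← Real.rpow_natCast]
      exact Real.rpow_le_rpow_of_exponent_le one_le_two (Nat.floor_le (by positivity))
    refine h1.trans (div_le_div_of_nonneg_right (one_le_pow₀ one_le_two) (by positivity))
  have hmu : ∀ ω, B₃ ω → ∀ j < r, |(mu (slam F Wn ω) j).eval (rt F Wn ω)| ≤ 2 ^ ⌊ζ * J⌋₊ := by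
    intro ω hω j hj
    have h1 := hsmall ω hω j hj
    have h2 := m4 ω (hB₃₁ ω hω) j hj
    have h3 : (2 : ℝ) ^ (-(s₁ * J)) ≤ 1 := by
      rw [Real.rpow_neg two_pos.le]
      exact inv_le_one_of_one_le₀ (Real.one_le_rpow one_le_two (by positivity))
    have h4 : |(mu (slam F Wn ω) j).eval (rt F Wn ω)| ≤ 2 ^ (ι * J) + 1 := by
      have h5 : (mu (slam F Wn ω) j).eval (rt F Wn ω) =
        gnh F c r (g₀ nb) (hyb G 0 nb r) (G (nb + n)) ω j -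
        (gnh F c r (g₀ nb) (hyb G 0 nb r) (G (nb + n)) ω j -
          (mu (slam F Wn ω) j).eval (rt F Wn ω)) := by ring
      rw [h5]
      exact (abs_sub _ _).trans (by linarith)
    have h5 : (1 : ℝ) ≤ 2 ^ (ι * J) := Real.one_le_rpow one_le_two (by positivity)
    have h6 : (2 : ℝ) ^ (ι * J) * 2 ≤ 2 ^ ⌊ζ * J⌋₊ := by
      have h7 : (2 : ℝ) ^ (ι * J) * 2 = 2 ^ (ι * J + 1) := by
        rw [Real.rpow_add two_pos, Real.rpow_one]
      rw [h7, ← Real.rpow_natCast]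
      refine Real.rpow_le_rpow_of_exponent_le one_le_two ?_
      have h8 := (Nat.lt_floor_add_one (ζ * (J : ℝ))).le
      nlinarith
    linarith
  -- the windows
  have hfl1 : ⌊o 0 * J⌋₊ ≤ ⌊o nb * J⌋₊ := by
    refine Nat.floor_le_floor (mul_le_mul_of_nonneg_right ?_ hJ0.le)
    have h1 : ∀ k ≤ nb, o 0 ≤ o k := by
      intro k
      induction k with
      | zero => intro _; exact le_rfl
      | succ k ih => intro hk; exact (ih (by omega)).trans (hmo k (by omega))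
    exact h1 nb le_rfl
  have hWw : Wn ≤ ⌊(w : ℝ) * J⌋₊ := by
    refine Nat.le_floor (m2.trans (mul_le_mul_of_nonneg_right hφw hJ0.le))
  have hWJ : Wn ≤ J := by
    have h1 : (Wn : ℝ) ≤ J := by
      have h2 : (Wn : ℝ) ≤ w * J := m2.trans (mul_le_mul_of_nonneg_right hφw hJ0.le)
      have h3 : (w : ℝ) * J ≤ 1 * J := mul_le_mul_of_nonneg_right (by exact_mod_cast w6.le)
        hJ0.le
      linarith
    exact_mod_cast h1
  have hWq : Wn ≤ ⌊o nb * J⌋₊ + zz J nb 1 := by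
    have h1 := (Nat.lt_floor_add_one (o nb * (J : ℝ))).le
    have h2 : (Wn : ℝ) ≤ ((⌊o nb * J⌋₊ + zz J nb 1 : ℕ) : ℝ) := by
      push_cast
      nlinarith
    exact_mod_cast h2
  -- the hybrid charts are near
  obtain ⟨Y, hY⟩ : ∃ Y : ℕ, Y = ⌊ζ / Cn * J⌋₊ := ⟨_, rfl⟩
  have e2 : ζ / Cn * J = 2 * (ζ / (2 * Cn) * J) := by
    field_simp
  have hn0 : (0 : ℝ) ≤ nb := Nat.cast_nonneg nb
  have hYR : ζ / (2 * Cn) * J ≤ Y := by
    have h4 := (Nat.lt_floor_add_one (ζ / Cn * (J : ℝ))).le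
    rw [← hY, e2] at h4
    linarith
  have hYle : Cn * (Y : ℝ) ≤ ζ * J := by
    have h4 : (Y : ℝ) ≤ ζ / Cn * J := by
      rw [hY]
      exact Nat.floor_le (by positivity)
    calc Cn * (Y : ℝ) ≤ Cn * (ζ / Cn * J) := mul_le_mul_of_nonneg_left h4 (by linarith)
      _ = ζ * J := by field_simp
  have hlin : ∀ x : ℝ, 2 * Cn * x ≤ ζ → x * J ≤ Y := fun x hx => by
    refine le_trans (mul_le_mul_of_nonneg_right ?_ hJ0.le) hYR
    rw [le_div_iff₀ (by positivity)]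
    linarith
  obtain ⟨κQ, -, hκQ⟩ := hnear W (fb := fun k => k) (jb := fun _ => 0) (nb := nb) (Y := Y) hc le_rfl
    (fun k hk => by omega) (fun k hk => ⟨by omega, z2 k (by omega), hmo k hk⟩) (by
      have := hlin (C₀ * ηm) (hCη' _ (by linarith) (by linarith))
      rw [mul_assoc] at this
      exact this) (by
      have h4 : (3 : ℝ) ≤ Y := by linarith
      exact_mod_cast h4) (by
      have h4 : (nb : ℝ) ≤ Y := by linarith
      exact h4.trans (by exact_mod_cast Nat.lt_two_pow_self.le))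
    (fun k hk l hl => by
      have h4 := hsl k hk l hl
      have h5 : 2 * Cn * |lv k l - o k - (lv nb l - o nb)| ≤ ζ :=
        (mul_le_mul_of_nonneg_right (by linarith) (abs_nonneg _)).trans h4
      have h6 := hlin _ h5
      have h7 := mul_le_mul_of_nonneg_right (le_abs_self (lv k l - o k - (lv nb l - o nb))) hJ0.le
      have h8 := mul_le_mul_of_nonneg_right (neg_le_abs (lv k l - o k - (lv nb l - o nb))) hJ0.le
      constructor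
      · linarith
      · have h9 : lv nb l - o nb - (lv k l - o k) = -(lv k l - o k - (lv nb l - o nb)) := by ring
        rw [h9]
        linarith)
  have hYf : Cn * Y ≤ ⌊ζ * J⌋₊ := Nat.le_floor (by push_cast; exact hYle)
  -- the contradiction
  have hfin := b5 (zz J) κ' bb B₀ g₀ G H 1 2 Wn W hB₀ (by norm_num) le_rfl z3 z5 z6 m1 hWw hWq B₃
    (hyb G 0 nb r) (hybH H 0 nb r ⌊o 0 * J⌋₊ ⌊o nb * J⌋₊ Wn) κQ mu hB₃₀
    (hout nb (by simp)) (hout (nb + n) (by simp))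
    (fun y l => hyb_deg W (by omega) (by omega) y l)
    (fun y l => hyb_dep W (by omega) (by omega) y l)
    (fun s l => hybH_deg W (by omega) (by omega) s l)
    (fun s l => hybH_dep W (by omega) (by omega) s l)
    (fun ω hω l hl => hyb_cls W (by omega) (by omega) le_rfl (hfl1.trans m1) m1 hWJ (hB₃₀ ω hω) hl)
    (fun ω hω l hl b hb => (hκQ ω (hB₃₀ ω hω) l hl b hb).trans (div_le_div_of_nonneg_right
      (pow_le_pow_right₀ (by norm_num) hYf) (by positivity))) m3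
    (fun ω hω j hj => (hsmall ω hω j hj).trans hpw) hmu
    (fun ω ν hω hν hpt j hj => (m5 ω ν (hB₃₁ ω hω) (hB₃₁ ν hν) hpt j hj).trans hpw)
  have hPA : Pe F.p A ≤ 32 ^ 2 * 4 * K₁ * Pe F.p B₃ := by
    have h1 : Pe F.p A ≤ 4 * K₁ * Pe F.p B₂ := by
      rw [one_div, inv_mul_le_iff₀ (by positivity)] at hPB₂
      exact hPB₂
    have h2 : Pe F.p B₂ ≤ 32 ^ 2 * Pe F.p B₃ := by simpa using hPB₃
    calc Pe F.p A ≤ 4 * K₁ * Pe F.p B₂ := h1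
      _ ≤ 4 * K₁ * (32 ^ 2 * Pe F.p B₃) := mul_le_mul_of_nonneg_left h2 (by positivity)
      _ = _ := by ring
  have hex : (32 ^ 2 * 4 * K₁ + 1) * Real.exp (-(δ * J)) < 1 := by
    rw [Real.exp_neg, ← div_eq_mul_inv, div_lt_one (Real.exp_pos _)]
    rw [← Real.log_lt_iff_lt_exp (by positivity)]
    exact j3
  have h1 : Pe F.p A ≤ 32 ^ 2 * 4 * K₁ * (Real.exp (-(δ * J)) * Pe F.p A) :=
    hPA.trans (mul_le_mul_of_nonneg_left hfin (by positivity))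
  have h2 : (32 ^ 2 * 4 * K₁) * Real.exp (-(δ * J)) < 1 := by
    have := Real.exp_pos (-(δ * (J : ℝ)))
    linarith
  have h3 : 32 ^ 2 * 4 * K₁ * (Real.exp (-(δ * J)) * Pe F.p A) =
      (32 ^ 2 * 4 * K₁) * Real.exp (-(δ * J)) * Pe F.p A := by ring
  rw [h3] at h1
  have h4 : (32 ^ 2 * 4 * K₁) * Real.exp (-(δ * J)) * Pe F.p A < 1 * Pe F.p A :=
    mul_lt_mul_of_pos_right h2 hA
  linarith

end Pool.V0F
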