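import Pool.Agent.H92.V0F.Lbf
import Pool.Agent.H92.V0F.Rsb

/-!
# Labels of fixed degree at the chain windows of a record

`recG_lbc`: a subclass, with the same record, in which labels of a universal degree exist on all
events, at all windows of the chain.
-/

set_option autoImplicit false

namespace Pool.V0F

open Finset Real MvPolynomial
open Pool.Agent.H49.Ent Pool.Agent.H32.Dense Pool.STK Pool.KA Pool.KSAT Pool.K2S Pool.PB Pool.GEN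
open Pool.S6C Pool.RCD Pool.LA91 Pool.OWN68
open Pool.PKG (Kg RecG)
open Pool.D2R (BalD)
open Pool.CHT (chsys TmH)
open Pool.ISO (lvN)

/-- The data of a ball window, with the constant of the chain. -/
theorem balD_rec {n : ℕ} {S : PCl n} {al : ℝ} {g₀ : ℝ → ℝ} {P : List (Fin n) × Fin n → ℝ → ℝ → ℝ}
    {θ : ℝ} {P₂ : ℕ → List (Fin n) × Fin n → ℝ → ℝ → ℝ} {θ₂ Eb e₂ : ℕ → ℝ}
    {c : ℕ → Fin n} {Pt : ℝ → ℝ → ℝ} {r : ℝ → ℝ} {h K₀ g : ℝ} {L T : ℕ → ℝ → ℝ → ℝ}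
    {Sl : ℕ → ℝ} {κ : ℕ → Kg} {G : Set ℝ} {S₀ N : ℕ} {A V : ℕ → ℝ} {S₂ N' : ℕ} {V' : ℕ → ℝ}
    {K ε q t : ℝ}
    (R : RecG S al g₀ P θ P₂ θ₂ Eb e₂ c Pt r h K₀ g L T Sl κ G S₀ N A V S₂ N' V' K ε q t)
    (hn : 2 ≤ n) (hK : 0 < K) {k : ℕ} (hk : k < N') (hVK : |V' k| ≤ K) :
    BalD S P θ c (n - 1) Pt (t + V' k * q + K * q) (t + V' k * q) S₀ (Eb (n - 1)) := by
  have W := R.tg (n - 1) (by omega) (by omega)
  have hlast := R.lv_last (by omega)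
  have hq := R.q0
  have h1 : 0 < K * q := mul_pos hK hq
  have h2 := W.ptc k hk
  rw [hlast] at h2
  obtain ⟨ρ, vs, e, e₀, E, sg, Q, k1, k2, -⟩ := h2
  refine ⟨by linarith, ⟨ρ, vs, e, e₀, E, sg, Q, k1, k2⟩, fun l hl => ?_⟩
  have h3 := W.room l hl (t + V' k * q) (by
    rw [add_sub_cancel_left, abs_mul, abs_of_pos hq]
    exact mul_le_mul_of_nonneg_right hVK hq.le)
  have h4 : lvN P c (n - 1) Pt l (t + V' k * q) (t + V' k * q) =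
      L l (t + V' k * q) (t + V' k * q) := by rw [R.lv l (by omega)]
  rw [h4]
  linarith

/-- **Labels of a universal degree at the chain windows of a record**, in a subclass: the degree `D`
depends only on `n` and `S₀`. -/
theorem recG_lbc (n S₀ : ℕ) (hn : 2 ≤ n) (hS₀ : 1 ≤ S₀) : ∃ D : ℕ, 1 ≤ D ∧
    ∀ {S : PCl n} {al : ℝ} {g₀ : ℝ → ℝ} {P : List (Fin n) × Fin n → ℝ → ℝ → ℝ}
    {θ : ℝ} {P₂ : ℕ → List (Fin n) × Fin n → ℝ → ℝ → ℝ} {θ₂ Eb e₂ : ℕ → ℝ}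
    {c : ℕ → Fin n} {Pt : ℝ → ℝ → ℝ} {r : ℝ → ℝ} {h K₀ g : ℝ} {L T : ℕ → ℝ → ℝ → ℝ}
    {Sl : ℕ → ℝ} {κ : ℕ → Kg} {G : Set ℝ} {N : ℕ} {A V : ℕ → ℝ} {S₂ N' : ℕ} {V' : ℕ → ℝ}
    {K ε q t : ℝ},
    RecG S al g₀ P θ P₂ θ₂ Eb e₂ c Pt r h K₀ g L T Sl κ G S₀ N A V S₂ N' V' K ε q t →
    0 < K → (∀ k < N', |V' k| ≤ K) →
    (∀ k < N', ∃ (u₀ u₁ : ℝ) (s rd : ℕ → ℝ), (∀ i < n - 1, 0 < s i) ∧
      Chn S c 0 (n - 1) (t + V' k * q) u₀ u₁ s rd) →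
    (∀ k < N', ∃ rk p E : ℝ, 0 < p ∧
      AttR S ((range (n - 1)).image c) (c (n - 1)) (t + V' k * q) p rk E) →
    ∃ S' : PCl n,
      (∀ (τ : ℝ) (J : ℕ) (F : Fam n J) (A : F.Ω → Prop), S'.St τ J F A → S.St τ J F A) ∧
      RecG S' al g₀ P θ P₂ θ₂ Eb e₂ c Pt r h K₀ g L T Sl κ G S₀ N A V S₂ N' V' K ε q t ∧
      ∀ k < N', ∃ E u₁ : ℝ, 1 ≤ E ∧ t + V' k * q ≤ u₁ ∧ u₁ < 1 ∧ ∀ e : ℝ, 0 < e →
        Bas S' (fun J F A => ∃ (V : Type) (z : PtT F → V) (z' : LnT F → V)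
          (g : V → ℕ → MvPolynomial (Option (Fin n)) ℝ),
          LbE F c n D (fun _ => E) e (t + V' k * q) (fun _ => u₁)
            (fun l => L l (t + V' k * q) (t + V' k * q)) A z z' g) := by
  obtain ⟨D, hD, hext⟩ := lbc_ext n (n - 1) S₀ (by omega) hS₀
  refine ⟨D, hD, ?_⟩
  intro S al g₀ P θ P₂ θ₂ Eb e₂ c Pt r h K₀ g L T Sl κ G N A V S₂ N' V' K ε q t R hK hV hch hatt
  have hn1 : n - 1 + 1 = n := by omega
  choose! u₀ u₁ s rd hs hch using hch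
  choose! rk p E hp hatt using hatt
  have hlv : ∀ k < N', ∀ i ≤ n - 1, 0 < lvN P c (n - 1) Pt i (t + V' k * q) (t + V' k * q) := by
    intro k hk i hi
    obtain ⟨ρ, vs, e, e₀, E, sg, Q, k1, -⟩ := (balD_rec R hn hK hk (hV k hk)).dw
    exact k1.w0.trans_le (k1.low R.thr i)
  obtain ⟨S', hne, hsub, hlab⟩ := hext (ι := {k : ℕ // k < N'}) (w := fun k => t + V' k.1 * q)
    (u := fun k _ => u₁ k.1) (E := fun k _ => max 1 (E k.1)) R.ne R.thr R.th0 R.tmh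
    (by norm_num : (0 : ℝ) ≤ 6) R.tmc (by rw [hn1]; exact R.inj) R.law (fun k =>
      LbD.of (balD_rec R hn hK k.2 (hV k.1 k.2)) (hch k.1 k.2) (hs k.1 k.2) (hp k.1 k.2)
        ((hatt k.1 k.2).mono (le_max_right 1 _)) (le_max_left _ _) (hlv k.1 k.2))
  refine ⟨S', hsub, R.sub hne hsub, fun k hk => ⟨max 1 (E k), u₁ k, le_max_left _ _,
    (hch k hk).wu1, (hch k hk).u1, fun e he => ?_⟩⟩
  refine (hlab ⟨k, hk⟩ e he).mono 0 ?_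
  rintro J - F A' ⟨V₁, z, z', g', h1⟩
  refine ⟨V₁, z, z', g', fun i hi => ?_⟩
  have h2 := h1 i (by omega)
  simp only [← R.lv i hi] at h2
  exact h2

end Pool.V0F
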