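import Pool.Agent.H3.V0F.Attu
import Pool.Agent.H92.V0F.Lbg

/-!
# Labels of fixed degree with small gradient exponents

`ChUQ`: the chain at all windows of `G`, full behind its largest level; `aePG_chU`, `her_chU`.
`recG_lbe`: a subclass, with the same record, in which labels of a universal degree exist on all
events, at all windows of the chain; level and gradient exponent stay below one by a margin.
-/

set_option autoImplicit false

namespace Pool.V0F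

open Finset Real MvPolynomial
open Pool.Agent.H49.Ent Pool.Agent.H32.Dense Pool.STK Pool.KA Pool.KSAT Pool.K2S Pool.PB Pool.GEN
open Pool.S6C Pool.RCD Pool.LA91 Pool.OWN68 Pool.PKG
open Pool.D2R (BalD)
open Pool.CHT (chsys TmH)
open Pool.ISO (lvN)
open Pool.TOP (TopS)
open Pool.ONE (lst)

section

variable {n : ℕ} {hn : 2 ≤ n} {S : PCl n} {P : ℝ → ℝ → ℝ} {rr : ℝ → ℝ}
  {P' : ℕ → List (Fin n) × Fin n → ℝ → ℝ → ℝ} {Λ : Finset (Fin n) → Fin n → ℝ → ℝ → ℝ}

/-- **The chain at a good window**, full behind its largest level. -/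
theorem gs_chnU (H : Pk hn S P rr P' Λ) (hTop : TopS n) (hF : FZX (n - 1)) {o : Od n} {w : ℝ}
    (hw : w ∈ Gs P rr P' Λ o) : ∃ rd : ℕ → ℝ, (∀ l < n - 1, 0 ≤ rd l) ∧
      Chn S (cc hn o.1.1) 0 (n - 1) w w (LvL hn P P' o (n - 2) w w)
        (fun l => LvL hn P P' o l w w) rd := by
  obtain ⟨u₁, rd, h1, h2⟩ := gs_chn H hTop hF hw (i := n - 1) le_rfl
  obtain ⟨-, a1, a2⟩ := gs_full H hTop hF hw
  obtain ⟨α, Q, c, F⟩ := H.fac hTop hF hw
  have hw0 := F.g0
  have hw1 := F.g1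
  have hex := Pool.OWN72.gs_exa H hF hw
  have hWv : w ∈ Wv Λ (Pool.OWN72.epo hn o) := hw.1.1
  obtain ⟨-, -, hg, hct⟩ := hWv
  have hmono := hg.mono H.lam hw1.le
  have e1 : LvL hn P P' o (n - 2) w w = vs Λ (Pool.OWN72.epo hn o) w (n - 1) := by
    have h1 := gs_lvl H hTop hF hw (l := n - 2) (by omega)
    rw [h1]
    congr 1
    omega
  refine ⟨rd, h1, { h2 with wu1 := a1, u1 := a2, pre := fun k _ hk => ?_ }⟩
  rw [e1]
  exact Pool.JMP45.ful_of H.tmc H.lam (Pool.OWN72.cc_epo (hn := hn) o) hw.1.1 hex hk (hmono hk)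

end

/-- **The chain at all windows of** `G`, full behind its largest level. -/
def ChUQ {n : ℕ} (_ : Unit) (_ : ℕ) (S : PCl n) (_ : List (Fin n) × Fin n → ℝ → ℝ → ℝ) (_ : ℝ)
    (c : ℕ → Fin n) (_ : ℝ → ℝ → ℝ) (_ : ℝ → ℝ) (L _ : ℕ → ℝ → ℝ → ℝ) (_ : ℕ → Kg)
    (G : Set ℝ) (_ : ℝ) : Prop :=
  ∀ w ∈ G, ∃ rd : ℕ → ℝ, (∀ l < n - 1, 0 ≤ rd l) ∧
    Chn S c 0 (n - 1) w w (L (n - 2) w w) (fun l => L l w w) rd

theorem her_chU (n : ℕ) : HerQ (ChUQ : PropG n Unit) := by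
  intro p k₀ S S' P θ c Pt r L T κ G x hs h w hw
  obtain ⟨rd, h1, h2⟩ := h w hw
  exact ⟨rd, h1, h2.sub hs⟩

/-- **It holds at almost every window.** -/
theorem aePG_chU (n : ℕ) : AePG n (ChUQ : PropG n Unit) := by
  intro hn S P r P' Λ PB PQ H hTop hF o G hG hGs
  exact ⟨S, H.toPk.ne, fun _ _ _ _ h => h, Filter.Eventually.of_forall fun g _ κ _ _ =>
    ⟨0, fun w hw => gs_chnU H.toPk hTop hF (hGs hw)⟩⟩

/-- **The data from a chain and a reference label of the target**; the radius is `u₁`. -/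
theorem LbD.of2 {m : ℕ} {S : PCl m} {P : List (Fin m) × Fin m → ℝ → ℝ → ℝ} {θ : ℝ}
    {c : ℕ → Fin m} {r : ℕ}
    {Pt : ℝ → ℝ → ℝ} {S₀ : ℕ} {Eb a w u₀ u₁ E rk : ℝ} {s rd : ℕ → ℝ}
    (hb : BalD S P θ c r Pt a w S₀ Eb) (hc : Chn S c 0 r w u₀ u₁ s rd)
    (hs : ∀ i < r, s i = lvN P c r Pt i w w)
    (ht : AttR S ((range r).image c) (c r) w (lvN P c r Pt r w w) rk E)
    (hE0 : 0 ≤ E) (hE : u₁ ≤ lvN P c r Pt r w w + E) (hpp : ∀ i ≤ r, 0 < lvN P c r Pt i w w) :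
    LbD S P θ c r Pt S₀ Eb w (fun _ => u₁)
      (fun i => if i < r then max 0 (u₁ - s i) else E) where
  bal := ⟨a, hb⟩
  ref := by
    intro i hi
    rcases Nat.lt_or_ge i r with h1 | h1
    · simp only [if_pos h1]
      refine ⟨rd i, s i, ?_, ?_, AttR.of (hc.att i (Nat.zero_le i) h1) (le_max_left _ _)⟩
      · rw [hs i h1]
        exact hpp i hi
      · linarith [le_max_right 0 (u₁ - s i)]
    · obtain rfl : i = r := by omega
      simp only [if_neg (lt_irrefl i)]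
      exact ⟨rk, _, hpp i le_rfl, hE, ht⟩
  ful := fun i hi => hc.pre i (Nat.zero_le i) hi
  wu := fun _ _ => hc.wu1
  u1 := fun _ _ => hc.u1
  E0 := fun i _ => by
    by_cases h1 : i < r
    · simp only [if_pos h1]
      exact le_max_left _ _
    · simp only [if_neg h1]
      exact hE0
  pu := fun i hi => by
    rcases Nat.lt_or_ge i r with h1 | h1
    · simp only [if_pos h1]
      rw [← hs i h1]
      linarith [le_max_right 0 (u₁ - s i)]
    · obtain rfl : i = r := by omega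
      simp only [if_neg (lt_irrefl i)]
      exact hE
  pp := hpp

/-- **Labels of a universal degree at the chain windows of a record**, in a subclass, with a margin:
the degree `D` depends only on `n` and `S₀`. -/
theorem recG_lbe (n S₀ : ℕ) (hn : 2 ≤ n) (hS₀ : 1 ≤ S₀) : ∃ D : ℕ, 1 ≤ D ∧
    ∀ {S : PCl n} {al : ℝ} {g₀ : ℝ → ℝ} {P : List (Fin n) × Fin n → ℝ → ℝ → ℝ}
    {θ : ℝ} {P₂ : ℕ → List (Fin n) × Fin n → ℝ → ℝ → ℝ} {θ₂ Eb e₂ : ℕ → ℝ}
    {c : ℕ → Fin n} {Pt : ℝ → ℝ → ℝ} {r : ℝ → ℝ} {h K₀ g : ℝ} {L T : ℕ → ℝ → ℝ → ℝ}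
    {Sl : ℕ → ℝ} {κ : ℕ → Kg} {G : Set ℝ} {N : ℕ} {A V : ℕ → ℝ} {S₂ N' : ℕ} {V' : ℕ → ℝ}
    {K ε q t m₁ : ℝ},
    RecG S al g₀ P θ P₂ θ₂ Eb e₂ c Pt r h K₀ g L T Sl κ G S₀ N A V S₂ N' V' K ε q t →
    0 < K → (∀ k < N', |V' k| ≤ K) → m₁ ≤ 3 * K * q →
    (∀ k < N', ∃ rd : ℕ → ℝ, Chn S c 0 (n - 1) (t + V' k * q) (t + V' k * q)
      (L (n - 2) (t + V' k * q) (t + V' k * q)) (fun l => L l (t + V' k * q) (t + V' k * q)) rd) →
    (∀ k < N', ∃ rk E : ℝ, 0 ≤ E ∧ E + L (n - 1) (t + V' k * q) (t + V' k * q) + m₁ ≤ 1 ∧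
      AttR S ((range (n - 1)).image c) (c (n - 1)) (t + V' k * q)
        (L (n - 1) (t + V' k * q) (t + V' k * q)) rk E) →
    ∃ S' : PCl n,
      (∀ (τ : ℝ) (J : ℕ) (F : Fam n J) (A : F.Ω → Prop), S'.St τ J F A → S.St τ J F A) ∧
      RecG S' al g₀ P θ P₂ θ₂ Eb e₂ c Pt r h K₀ g L T Sl κ G S₀ N A V S₂ N' V' K ε q t ∧
      ∀ k < N', ∃ (E rd : ℕ → ℝ) (ρ : ℝ), ρ < 1 ∧
        (∀ l ≤ n - 1, 0 ≤ E l ∧ L l (t + V' k * q) (t + V' k * q) + E l + m₁ ≤ 1 ∧
          0 ≤ rd l ∧ rd l ≤ ρ) ∧ ∀ e : ℝ, 0 < e →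
        Bas S' (fun J F A => ∃ (V : Type) (z : PtT F → V) (z' : LnT F → V)
          (g : V → ℕ → MvPolynomial (Option (Fin n)) ℝ),
          LbE F c n D E e (t + V' k * q) rd
            (fun l => L l (t + V' k * q) (t + V' k * q)) A z z' g) := by
  obtain ⟨D, hD, hext⟩ := lbc_ext n (n - 1) S₀ (by omega) hS₀
  refine ⟨D, hD, ?_⟩
  intro S al g₀ P θ P₂ θ₂ Eb e₂ c Pt r h K₀ g L T Sl κ G N A V S₂ N' V' K ε q t m₁ R hK hV hm₁
    hch hatt
  have hn1 : n - 1 + 1 = n := by omega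
  have hq := R.q0
  choose! rd hch using hch
  choose! rk E hE0 hE1 hatt using hatt
  have hlv : ∀ k < N', ∀ i ≤ n - 1, 0 < lvN P c (n - 1) Pt i (t + V' k * q) (t + V' k * q) := by
    intro k hk i hi
    obtain ⟨ρ, vs, e, e₀, E, sg, Q, k1, -⟩ := (balD_rec R hn hK hk (hV k hk)).dw
    exact k1.w0.trans_le (k1.low R.thr i)
  have hlvL : ∀ k : ℕ, ∀ i ≤ n - 1, lvN P c (n - 1) Pt i (t + V' k * q) (t + V' k * q) =
      L i (t + V' k * q) (t + V' k * q) := fun k i hi => by rw [R.lv i (by omega)]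
  have hroom : ∀ k < N', ∀ i ≤ n - 1, L i (t + V' k * q) (t + V' k * q) + m₁ ≤ 1 := by
    intro k hk i hi
    have W := R.tg (n - 1) (by omega) (by omega)
    have h3 := W.room i hi (t + V' k * q) (by
      rw [add_sub_cancel_left, abs_mul, abs_of_pos hq]
      exact mul_le_mul_of_nonneg_right (hV k hk) hq.le)
    have := W.Eb0
    linarith
  obtain ⟨u, hu⟩ : ∃ u : ℕ → ℝ, u = fun k => L (n - 2) (t + V' k * q) (t + V' k * q) := ⟨_, rfl⟩
  have hue : ∀ k, L (n - 2) (t + V' k * q) (t + V' k * q) = u k := fun k => by rw [hu]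
  obtain ⟨E', hE'⟩ : ∃ E' : ℕ → ℝ, E' = fun k =>
      max (E k) (u k - L (n - 1) (t + V' k * q) (t + V' k * q)) := ⟨_, rfl⟩
  obtain ⟨S', hne, hsub, hlab⟩ := hext (ι := {k : ℕ // k < N'}) (w := fun k => t + V' k.1 * q)
    (u := fun k _ => u k.1)
    (E := fun k i => if i < n - 1 then max 0 (u k.1 - L i (t + V' k.1 * q) (t + V' k.1 * q))
      else E' k.1) R.ne R.thr R.th0 R.tmh
    (by norm_num : (0 : ℝ) ≤ 6) R.tmc (by rw [hn1]; exact R.inj) R.law (fun k => by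
      have h1 := hch k.1 k.2
      rw [hue] at h1
      refine LbD.of2 (balD_rec R hn hK k.2 (hV k.1 k.2)) h1 (fun i hi => (hlvL k.1 i hi.le).symm)
        (rk := rk k.1) ?_ ?_ ?_ (hlv k.1 k.2)
      · rw [hlvL k.1 _ le_rfl]
        refine (hatt k.1 k.2).mono ?_
        rw [hE']
        exact le_max_left _ _
      · rw [hE']
        exact (hE0 k.1 k.2).trans (le_max_left _ _)
      · rw [hlvL k.1 _ le_rfl, hE']
        have := le_max_right (E k.1) (u k.1 - L (n - 1) (t + V' k.1 * q) (t + V' k.1 * q))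
        linarith)
  refine ⟨S', hsub, R.sub hne hsub, fun k hk => ⟨fun i => if i < n - 1 then
    max 0 (u k - L i (t + V' k * q) (t + V' k * q)) else E' k, fun _ => u k, u k, ?_,
    fun l hl => ⟨?_, ?_, ?_, le_rfl⟩, fun e he => ?_⟩⟩
  · rw [← hue]
    exact (hch k hk).u1
  · by_cases h1 : l < n - 1
    · simp only [if_pos h1]
      exact le_max_left _ _
    · simp only [if_neg h1]
      rw [hE']
      exact (hE0 k hk).trans (le_max_left _ _)
  · have hu1 : u k + m₁ ≤ 1 := by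
      rw [← hue]
      exact hroom k hk _ (by omega)
    by_cases h1 : l < n - 1
    · simp only [if_pos h1]
      have h2 := hroom k hk l hl
      rcases max_choice 0 (u k - L l (t + V' k * q) (t + V' k * q)) with h3 | h3
      · rw [h3]
        linarith
      · rw [h3]
        linarith
    · have h2 : l = n - 1 := by omega
      subst h2
      simp only [lt_irrefl, if_false]
      rw [hE']
      simp only
      rcases max_choice (E k) (u k - L (n - 1) (t + V' k * q) (t + V' k * q)) with h3 | h3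
      · rw [h3]
        linarith [hE1 k hk]
      · rw [h3]
        linarith
  · show 0 ≤ u k
    rw [← hue]
    exact (hch k hk).w0.trans (hch k hk).wu1
  · refine (hlab ⟨k, hk⟩ e he).mono 0 ?_
    rintro J - F A' ⟨V₁, z, z', g', h1⟩
    refine ⟨V₁, z, z', g', fun i hi => ?_⟩
    have h2 := h1 i (by omega)
    simp only [← R.lv i hi] at h2
    exact h2

end Pool.V0F
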