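import Pool.Agent.H92.V0F.Vsh
import Pool.Agent.H92.V0F.Vsc
import Pool.Agent.H92.D2.Cel
import Pool.Agent.H3.D2G.RecZ

/-!
# The base coordinates over the charts of an earlier window: the record

`v0_void`: no record for the kinds one, …, one, thin. `v0_lVoA`: `LVoA n` from the class theorem.
-/

set_option autoImplicit false

namespace Pool.V0F

open Finset Real MvPolynomial
open Pool.Agent.H49.Ent Pool.Agent.H32.Dense Pool.STK Pool.KA Pool.KSAT Pool.K2S Pool.PB Pool.GEN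
open Pool.S6C Pool.RCD Pool.LA91 Pool.OWN68 Pool.PKG
open Pool.D2R (BalD WinB gnh hyb hybH winb_con)
open Pool.CHT (chsys TmH bet)
open Pool.ISO (lvN)

/-- The parameters of the points. -/
def vpp (r Cf : ℕ) (κ' : ℚ) (pn : ℕ) : ℕ → (ℕ × ℕ × ℚ × ℚ) ⊕ (ℕ ⊕ (Unit ⊕ Unit))
  | 0 => Sum.inl (r, Cf, 1 / 8, κ')
  | 1 => Sum.inr (Sum.inl pn)
  | 2 => Sum.inr (Sum.inr (Sum.inl ()))
  | _ => Sum.inr (Sum.inr (Sum.inr ()))

/-- **No record** for the kinds one, …, one, thin. -/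
theorem v0_void (hV : V0cStmt) {r : ℕ} (hr : 1 ≤ r) {h : ℝ} (hh0 : 0 < h) (hh1 : h ≤ 1)
    {Sl : ℕ → ℝ} {κ : ℕ → Kg} (hSl : ∀ l < r, Sl l = 1) (hκ1 : ∀ l < r, κ l = .one)
    (hκ : κ r = .thin) (hs : 1 < Sl r) :
    VoidQG (r + 1) h Sl κ (sumQ FaQ (sumQ NlaQ (sumQ AttUQ ChUQ))) := by
  intro al _ K₀ _ S₀ hS₀
  obtain ⟨D₁, hD₁, hlbe⟩ := recG_lbe (r + 1) S₀ (by omega) hS₀
  obtain ⟨D₂, hD₂, hwin⟩ := winb_con (r + 1) r S₀ hr hS₀
  obtain ⟨D, hDe⟩ : ∃ D, D = max D₁ D₂ := ⟨_, rfl⟩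
  have hD1 : D₁ ≤ D := by rw [hDe]; exact le_max_left _ _
  have hD2 : D₂ ≤ D := by rw [hDe]; exact le_max_right _ _
  have hD : 1 ≤ D := hD₁.trans hD1
  obtain ⟨CB, hCB, hwin⟩ := hwin D hD2 D le_rfl
  obtain ⟨C, hC, hend⟩ := v0_clsEnd (r + 1) D r hD
  obtain ⟨Λ, κ₂, hΛ, hκ₂, hκ₂1, hV⟩ := hV D r (Sl r) h hD hr hs hh0 hh1 (1 / 2) (by norm_num)
  have hC1 : (1 : ℝ) ≤ C := by exact_mod_cast hC
  have hC0 : (0 : ℝ) < C := by linarith
  have hs0 : 0 < Sl r := by linarith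
  -- the constants
  obtain ⟨β, hβe⟩ : ∃ β : ℝ, β = min κ₂ (Sl r - 1) / 32 := ⟨_, rfl⟩
  have hβ : 0 < β := by
    rw [hβe]
    have : 0 < min κ₂ (Sl r - 1) := lt_min hκ₂ (by linarith)
    positivity
  have hβκ : 32 * β ≤ κ₂ := by
    rw [hβe]
    have := min_le_left κ₂ (Sl r - 1)
    linarith
  have hβs : 32 * β ≤ Sl r - 1 := by
    rw [hβe]
    have := min_le_right κ₂ (Sl r - 1)
    linarith
  obtain ⟨ζ, hζe⟩ : ∃ ζ : ℝ, ζ = β / (C * (Sl r + 1)) := ⟨_, rfl⟩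
  have hζ0 : 0 < ζ := by rw [hζe]; positivity
  have hζ : C * ζ * (Sl r + 1) = β := by
    rw [hζe]
    field_simp
  have hζ1 : ζ ≤ 1 / 32 := by
    have h1 : C * ζ * (Sl r + 1) ≤ 1 / 32 := by linarith
    have h2 : ζ ≤ C * ζ := le_mul_of_one_le_left hζ0.le hC1
    have h3 : C * ζ ≤ C * ζ * (Sl r + 1) :=
      le_mul_of_one_le_right (by positivity) (by linarith)
    linarith
  obtain ⟨φ₀, hφ₀, hV⟩ := hV (ζ / 2) (by positivity)
  refine ⟨1, 1, fun _ => 1, fun _ => ζ / 2, le_rfl, fun k _ => ⟨by linarith, by linarith, le_rfl⟩,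
    fun S₂ hS₂ => ?_⟩
  obtain ⟨φ', hφe⟩ : ∃ φ' : ℝ, φ' = min φ₀ (min (ζ / 16) (1 / 400)) := ⟨_, rfl⟩
  have hφ0 : 0 < φ' := by
    rw [hφe]
    exact lt_min hφ₀ (lt_min (by positivity) (by norm_num))
  have hφ1 : φ' ≤ φ₀ := by rw [hφe]; exact min_le_left _ _
  have hφ2 : φ' ≤ ζ / 16 := by
    rw [hφe]
    exact (min_le_right _ _).trans (min_le_left _ _)
  have hφ3 : φ' ≤ 1 / 400 := by
    rw [hφe]
    exact (min_le_right _ _).trans (min_le_right _ _)
  obtain ⟨Cf, hCf⟩ := exists_nat_ge (2 * Λ + 7 * r + 15)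
  obtain ⟨cb, hcb⟩ : ∃ cb : ℕ, cb = Cf + 7 * r + 13 := ⟨_, rfl⟩
  obtain ⟨co, hco⟩ := exists_nat_ge (Λ + 1)
  obtain ⟨M₀, hM₀⟩ := exists_nat_ge (2 * (Sl r + 1) / φ')
  have hcbR : (cb : ℝ) = Cf + 7 * r + 13 := by rw [hcb]; push_cast; ring
  have hr0 : (0 : ℝ) ≤ r := Nat.cast_nonneg _
  have hM1 : 1 ≤ M₀ := by
    have h1 : (0 : ℝ) < M₀ := lt_of_lt_of_le (by positivity) hM₀
    have h2 : 0 < M₀ := by exact_mod_cast h1
    omega
  have hM0 : (0 : ℝ) < M₀ := by exact_mod_cast hM1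
  have hMφ : 2 * (Sl r + 1) / M₀ ≤ φ' := by
    rw [div_le_iff₀ hM0]
    rw [div_le_iff₀ hφ0] at hM₀
    linarith
  obtain ⟨K', hK'⟩ : ∃ K' : ℝ, K' = cb + co + Λ + Sl r + 10 := ⟨_, rfl⟩
  obtain ⟨N', hN'⟩ : ∃ N' : ℕ, N' = (cb + co) * M₀ + 1 := ⟨_, rfl⟩
  have hcb0 : (0 : ℝ) ≤ cb := Nat.cast_nonneg _
  have hco0 : (0 : ℝ) ≤ co := Nat.cast_nonneg _
  have hcbΛ : 2 * Λ + 28 ≤ cb := by rw [hcbR]; linarith
  obtain ⟨ε, hεe⟩ : ∃ ε : ℝ, ε = min (φ' / 4) (min (ζ / (2 * C)) (β / 16)) := ⟨_, rfl⟩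
  have hε0 : 0 < ε := by
    rw [hεe]
    exact lt_min (by positivity) (lt_min (by positivity) (by positivity))
  have hε1 : ε ≤ φ' / 4 := by rw [hεe]; exact min_le_left _ _
  have hε2 : ε ≤ ζ / (2 * C) := by
    rw [hεe]
    exact (min_le_right _ _).trans (min_le_left _ _)
  have hε3 : ε ≤ β / 16 := by
    rw [hεe]
    exact (min_le_right _ _).trans (min_le_right _ _)
  refine ⟨K', N', chV M₀ cb, by rw [hK']; linarith, fun k hk => ?_, ε, hε0, ?_⟩
  · have h1 := abs_le.1 (chV_abs (M₀ := M₀) (cb := cb) (co := co) (k := k) hM1 (by omega))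
    rw [hK']
    constructor <;> linarith [h1.1, h1.2]
  intro S g₀ P θ P₂ θ₂ Eb e₂ c Pt rt L T G g hG hgG
  obtain ⟨κ', hκ'0, hκ'1⟩ : ∃ κ' : ℚ, (0 : ℝ) < κ' ∧ (κ' : ℝ) < φ₀ := exists_rat_btwn hφ₀
  obtain ⟨pn, hpn⟩ := exists_nat_ge ((Λ + 2) / φ₀)
  refine ⟨vpp r Cf κ' pn, 4, fun j => if j = 0 then -(Cf + (7 * r + 12) / 2 - Λ) else -1,
    fun j => if j = 0 then -(Cf / 2 + 7 * r + 13) else 0, fun j _ => ?_, fun k₀ => ?_⟩
  · by_cases hj : j = 0
    · simp only [if_pos hj]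
      linarith
    · simp only [if_neg hj]
      norm_num
  refine ⟨min ((1 / 2) ^ k₀ 0) (min ((1 / 2) ^ k₀ 1 / (Λ + 2))
    ((1 / 2) ^ k₀ 2 / (cb + co + Λ + 2))), ?_, ?_⟩
  · have : 0 < Λ + 2 := by linarith
    have : 0 < cb + co + Λ + 2 := by linarith
    exact lt_min (by positivity) (lt_min (by positivity) (by positivity))
  intro q t x hq hx R
  have hq0 := R.q0
  have hΛ2 : 0 < Λ + 2 := by linarith
  have hcc2 : 0 < cb + co + Λ + 2 := by linarith
  have hqa : q < (1 / 2) ^ k₀ 0 := hq.trans_le (min_le_left _ _)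
  have hqb : (Λ + 2) * q ≤ (1 / 2) ^ k₀ 1 := by
    have h1 := hq.trans_le ((min_le_right _ _).trans (min_le_left _ _))
    rw [lt_div_iff₀ hΛ2] at h1
    linarith
  have hqc : (cb + co + Λ + 2) * q ≤ (1 / 2) ^ k₀ 2 := by
    have h1 := hq.trans_le ((min_le_right _ _).trans (min_le_right _ _))
    rw [lt_div_iff₀ hcc2] at h1
    linarith
  obtain ⟨k, hk0, hk1, hk2⟩ := pow_near hq0 hqa
  -- the points
  obtain ⟨x0G, x01, x02, hQ0⟩ := hx 0 (by norm_num)
  obtain ⟨x1G, x11, x12, hQ1⟩ := hx 1 (by norm_num)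
  obtain ⟨x2G, x21, x22, hQ2⟩ := hx 2 (by norm_num)
  obtain ⟨x3G, x31, x32, hQ3⟩ := hx 3 (by norm_num)
  have hFa : FaQ (r, Cf, (1 / 8 : ℚ), κ') (k₀ 0) S P θ c Pt rt L T κ G (x 0) := hQ0
  have hNl : NlaQ pn (k₀ 1) S P θ c Pt rt L T κ G (x 1) := hQ1
  have hAt : AttUQ () (k₀ 2) S P θ c Pt rt L T κ G (x 2) := hQ2
  have hCh : ChUQ () (k₀ 3) S P θ c Pt rt L T κ G (x 3) := hQ3
  simp only [if_true] at x01 x02
  simp only [one_ne_zero, if_false] at x11 x12
  have h20 : (2 : ℕ) ≠ 0 := by norm_num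
  simp only [if_neg h20] at x21 x22
  -- the room
  have hK0 : 0 < K' := by rw [hK']; linarith
  have hK1 : 1 ≤ K' := by rw [hK']; linarith
  have hKco : (cb : ℝ) + co + 1 ≤ K' := by rw [hK']; linarith
  have ht0 := R.t0
  have ht1 := R.t1
  have hKq : cb * q + co * q + Λ * q + Sl r * q + 10 * q = K' * q := by rw [hK']; ring
  have hcbq : 0 ≤ cb * q := by positivity
  have hcoq : 0 ≤ co * q := by positivity
  have hΛq : q ≤ Λ * q := le_mul_of_one_le_left hq0.le hΛ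
  have hsq : 0 < Sl r * q := by positivity
  have hΛcb : Λ * q ≤ cb * q := mul_le_mul_of_nonneg_right (by linarith) hq0.le
  have hΛco : Λ * q ≤ co * q := mul_le_mul_of_nonneg_right (by linarith) hq0.le
  have hVK : ∀ k < N', |chV M₀ cb k| ≤ K' := fun k hk =>
    (chV_abs (M₀ := M₀) (cb := cb) (co := co) (k := k) hM1 (by omega)).trans (by linarith)
  -- the labels
  have hattS : ∀ k < N', ∃ rk E : ℝ, 0 ≤ rk ∧ rk ≤ 1 - (1 / 2) ^ k₀ 2 ∧ 0 ≤ E ∧
      E + L r (t + chV M₀ cb k * q) (t + chV M₀ cb k * q) ≤ 1 - (1 / 2) ^ k₀ 2 ∧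
      LbU S ((range r).image c) (c r) (t + chV M₀ cb k * q)
        (L r (t + chV M₀ cb k * q) (t + chV M₀ cb k * q)) rk E := by
    intro k hk
    refine hAt _ (R.memG.2 k hk) ?_
    have h1 := abs_le.1 (chV_abs (M₀ := M₀) (cb := cb) (co := co) (k := k) hM1 (by omega))
    have h2 := mul_le_mul_of_nonneg_right h1.1 hq0.le
    have h3 := mul_le_mul_of_nonneg_right h1.2 hq0.le
    rw [abs_le]
    constructor <;> linarith
  have hhalf : (0 : ℝ) < (1 / 2) ^ k₀ 2 := by positivity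
  obtain ⟨S', hsub, R', hlab⟩ := hlbe (m₁ := Λ * q) R hK0 hVK (by
    have h1 : 0 ≤ K' * q := by positivity
    linarith) (fun k hk => by
    obtain ⟨rd, -, h2⟩ := hCh _ (R.memG.2 k hk)
    exact ⟨rd, h2⟩) (fun k hk => by
    obtain ⟨rk, E, h1, h2, h3, h4, h5⟩ := hattS k hk
    refine ⟨rk, E, h3, ?_, h5⟩
    have h6 : E + L r (t + chV M₀ cb k * q) (t + chV M₀ cb k * q) + Λ * q ≤ 1 := by
      linarith
    exact h6)
  have hFa' := hFa.sub hsub
  have hNl' := her_nla (r + 1) pn (k₀ 1) S S' P θ c Pt rt L T κ G (x 1) hsub hNl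
  have hatt' : ∀ k < N', ∃ rk E : ℝ, 0 ≤ rk ∧ rk < 1 ∧ 0 ≤ E ∧
      E + L r (t + chV M₀ cb k * q) (t + chV M₀ cb k * q) < 1 ∧
      LbU S' ((range r).image c) (c r) (t + chV M₀ cb k * q)
        (L r (t + chV M₀ cb k * q) (t + chV M₀ cb k * q)) rk E := by
    intro k hk
    obtain ⟨rk, E, h1, h2, h3, h4, h5⟩ := hattS k hk
    exact ⟨rk, E, h1, by linarith, h3, by linarith, h5.sub hsub⟩
  clear hQ0 hQ1 hQ2 hQ3 hlbe hx
  have W := R'.tg r hr (by omega)
  have hEb := W.Eb0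
  -- the errors
  have e1 : ε * q ≤ φ' / 4 * q := mul_le_mul_of_nonneg_right hε1 hq0.le
  have e2 : φ' * q ≤ φ₀ * q := mul_le_mul_of_nonneg_right hφ1 hq0.le
  have e3 : φ' * q ≤ ζ / 16 * q := mul_le_mul_of_nonneg_right hφ2 hq0.le
  have e4 : φ' * q ≤ 1 / 400 * q := mul_le_mul_of_nonneg_right hφ3 hq0.le
  have e5 : 0 < φ' * q := by positivity
  have e6 : 0 < ε * q := by positivity
  have e7 : q / M₀ + Sl r * (q / M₀) ≤ φ' / 2 * q := by
    have h1 := mul_le_mul_of_nonneg_right hMφ hq0.le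
    have h2 : 2 * (Sl r + 1) / M₀ * q = 2 * (q / M₀ + Sl r * (q / M₀)) := by
      field_simp
      ring
    linarith
  have e8 : 0 < q / M₀ := by positivity
  have e9 : 0 < Sl r * (q / M₀) := by positivity
  have hqM : q / M₀ ≤ φ' * q := by linarith
  -- the ladder
  have hlad := rec_lad R' (M₀ := M₀) (cb := cb) (co := co) (φ := φ' * q) hM1 hN' (fun _ _ => rfl)
    hKco hε0 hSl hs.le (by linarith) hqM (hFa'.ch r (by omega)) hatt'
  have hGd := R'.gd
  obtain ⟨nb, hnb⟩ : ∃ nb : ℕ, nb = cb * M₀ := ⟨_, rfl⟩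
  obtain ⟨ow, how⟩ : ∃ ow : ℕ → ℝ, ow = fun k => t + chV M₀ cb k * q := ⟨_, rfl⟩
  have hok : ∀ k, ow k = t + chV M₀ cb k * q := fun k => by rw [how]
  have how0 : ow 0 = t - cb * q := by rw [hok, chV_zero]; ring
  have hownb : ow nb = t := by rw [hok, hnb, chV_mid hM1]; ring
  have hownn : ow (nb + M₀) = t + q := by
    rw [hok, hnb, chV_nb hM1, div_self hM0.ne']
    ring
  have hNN : nb + M₀ < N' := by
    rw [hN', hnb, add_mul]
    have : 1 ≤ co := by
      have h1 : (1 : ℝ) ≤ co := by linarith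
      exact_mod_cast h1
    have h2 : M₀ ≤ co * M₀ := Nat.le_mul_of_pos_left _ (by omega)
    omega
  have howlv : ∀ k < N', ∀ l ≤ r, lvN P c r Pt l (ow k) (ow k) = L l (ow k) (ow k) := by
    intro k _ l hl
    rw [R'.lv l (by omega)]
    rfl
  rw [← hok 0] at hlad
  have hGok : ∀ k < N', ow k ∈ {v : ℝ | ∃ k < N', v = t + chV M₀ cb k * q} :=
    fun k hk => ⟨k, hk, hok k⟩
  have hroomx : ∀ y : ℝ, t - cb * q ≤ y → y ≤ t + co * q → ∀ l ≤ r,
      L l y y + Eb r + 3 * K' * q < 1 := fun y h1 h2 l hl => W.room l hl y (by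
    rw [abs_le]
    constructor <;> linarith)
  have hlowx : ∀ y : ℝ, t - cb * q ≤ y → y ≤ t + co * q → ∀ l ≤ r, y ≤ L l y y :=
    fun y h1 h2 l hl => rec_low R' hl (by linarith) (by linarith)
  have hdLr : ∀ y : ℝ, t - cb * q ≤ y → y ≤ t + co * q →
      |L r y y - L r t t - Sl r * (y - t)| ≤ φ' * q := fun y h1 h2 => by
    refine (R'.dL r (by omega) y (by
      rw [abs_le]
      constructor <;> linarith)).trans (by linarith)
  have hks := chw_ks (cb := cb) (t := t) (φ := φ' * q) hM1 hs hq0 hqM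
  rw [← hnb] at hks
  have hCfq : (2 * Λ + 7 * r + 15) * q ≤ Cf * q := mul_le_mul_of_nonneg_right hCf hq0.le
  have hrq : 0 ≤ r * q := by positivity
  have hcbq' : cb * q = Cf * q + 7 * (r * q) + 13 * q := by rw [hcbR]; ring
  have hx0K : |x 0 - t| ≤ K' * q := by
    rw [abs_le]
    constructor <;> linarith
  have hx0l : ∀ l < r, |(L l (x 0) (x 0) - x 0) - (L l t t - t)| ≤ ε * q := fun l hl =>
    rec_one R' hSl hl hx0K
  have hCk : (Cf : ℝ) * (q / 2) ≤ Cf * (1 / 2) ^ k :=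
    mul_le_mul_of_nonneg_left (by linarith) (Nat.cast_nonneg _)
  have hpk : (0 : ℝ) < (1 / 2) ^ k := by positivity
  -- the windows
  obtain ⟨ηm, hηm⟩ : ∃ ηm : ℝ, ηm = min (ζ / (C * CB)) (φ' / CB) * q := ⟨_, rfl⟩
  have hCB0 : 0 < CB := by linarith
  have hηm0 : 0 < ηm := by
    rw [hηm]
    exact mul_pos (lt_min (by positivity) (by positivity)) hq0
  have hηm1 : C * (CB * ηm) ≤ ζ * q := by
    have h1 : ηm ≤ ζ / (C * CB) * q := by
      rw [hηm]
      exact mul_le_mul_of_nonneg_right (min_le_left _ _) hq0.le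
    calc C * (CB * ηm) ≤ C * (CB * (ζ / (C * CB) * q)) :=
          mul_le_mul_of_nonneg_left (mul_le_mul_of_nonneg_left h1 hCB0.le) hC0.le
      _ = ζ * q := by field_simp
  have hηm2 : CB * ηm ≤ φ' * q := by
    have h1 : ηm ≤ φ' / CB * q := by
      rw [hηm]
      exact mul_le_mul_of_nonneg_right (min_le_right _ _) hq0.le
    calc CB * ηm ≤ CB * (φ' / CB * q) := mul_le_mul_of_nonneg_left h1 hCB0.le
      _ = φ' * q := by field_simp
  have hr₀ : 0 < min (q / (2 * M₀)) (ζ / 2 * q / 2) := lt_min (by positivity) (by positivity)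
  obtain ⟨K₁, bb, hK₁, hwin⟩ := hwin (S := S') (P := P) (θ := θ) (c := c) (Pt := Pt)
    (a := t + 3 * q) (Eb := Eb r) (ηm := ηm) (o := ow) (η := fun _ => ηm) (σ := fun _ => ηm)
    (r₀ := fun _ => min (q / (2 * M₀)) (ζ / 2 * q / 2)) (nb + M₀) 2 R'.thr R'.th0 R'.tmh R'.inj
    R'.law hEb.le (fun k' hk' => by
      rw [hok]
      have h1 := abs_le.1 (chV_abs (M₀ := M₀) (cb := cb) (co := co) (k := k') hM1 (by omega))
      have h2 : chV M₀ cb k' ≤ 1 := by
        have h3 := chV_mono (M₀ := M₀) (cb := cb) hk'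
        rwa [hnb, chV_nb hM1, div_self hM0.ne'] at h3
      exact rec_balS R' hr (by omega) (by linarith) (by linarith [h1.1]) (hVK k' (by omega)))
    (fun k' _ => ⟨hηm0, hηm0, le_rfl, hr₀, le_rfl⟩)
  -- the class theorem
  have hbas := hV hlad (rec_img R') hGd (w := ow nb) (u := q) (lam := lh (L r) G)
    (sp := fun i x => L i x x - 1 / 8 / 20 * (1 / 2) ^ k) hq0 (hGok nb (by omega)) e2
    (by rw [how0, hownb]; linarith) (by rw [hownb]; linarith) (by linarith) (by rw [how0]; linarith)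
    (fun l hl => ⟨by
      have h1 := hlowx (ow 0) (by rw [how0]) (by rw [how0]; linarith) l hl
      rw [how0] at h1 ⊢
      linarith, by
      have h1 := hroomx (t + co * q) (by linarith) le_rfl l hl
      linarith⟩)
    (fun v _ h1 h2 => by
      rw [how0] at h1
      rw [hownb]
      exact hdLr v h1 h2)
    (fun v h1 h2 => by
      rw [how0] at h1
      rw [hownb]
      exact rec_lam R' hM1 hN' (fun _ _ => rfl) hKco hs0.le (by linarith) h1 h2)
    (fun P₁ P₂' h1 h2 h3 => by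
      rw [hownb] at h1 h2
      refine rec_rows R' hr hε0 (by linarith) (by rw [hK']; linarith) hK1 (by linarith) h1 h2 h3 ?_
      have h4 := hlowx t (by linarith) (by linarith) r le_rfl
      linarith)
    (fun v hv _ _ => rec_labv (fun _ _ => rfl) hD1 hlab v hv)
    (by
      obtain ⟨rk, E, a1, a2, a3, a4, a5⟩ := hattS nb (by omega)
      rw [← hok] at a4 a5
      exact ⟨rk, E, by linarith, a3, a5.sub hsub, by linarith⟩)
    (fun i _ => by
      show L i (ow 0) (ow 0) - 1 / 8 / 20 * (1 / 2) ^ k ≤ L i (ow 0) (ow 0) - φ' * q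
      linarith)
    (fun Pd w₁ x' h1 h2 _ h3 h4 h5 h6 => by
      rw [hownb] at h1 h4
      simp only [hownb] at h5 h6
      refine fri_of (σ := 1 / 8) (κ := κ') (g := x 0) (G := G) (C := Cf) (k := k) (q := q)
        (by push_cast; norm_num) rfl (hFa'.free (by omega) (fun l hl => hκ1 l hl) (by norm_num)
          (by norm_num) (by exact_mod_cast hκ'0) k hk0) ⟨fun i => ?_, fun i => ?_, fun l i hli => ?_⟩
        ?_ ?_ ?_ h3 ?_ ?_
      · have a1 := (h5 i).1
        have a2 := abs_le.1 (hx0l i i.2)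
        linarith [a2.1, a2.2]
      · have a1 := (h5 i).2
        have a2 := abs_le.1 (hx0l i i.2)
        linarith [a2.1, a2.2]
      · have a1 := h6 l i hli
        have a2 := abs_le.1 (hx0l i i.2)
        have a3 := abs_le.1 (hx0l l l.2)
        push_cast
        linarith [a2.1, a2.2, a3.1, a3.2]
      · rw [hok]
        exact R'.memG.2 0 (by omega)
      · rw [how0]
        linarith
      · rw [how0]
        unfold lagG
        have a1 : ((Cf : ℝ) + 7 * r + 13) * (1 / 2) ^ k ≤ cb * q := by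
          rw [hcbR]
          exact mul_le_mul_of_nonneg_left hk2 (by positivity)
        linarith
      · unfold lstG
        have a1 : (2 * (Cf : ℝ) + 7 * r + 12) * (q / 2) ≤ (2 * (Cf : ℝ) + 7 * r + 12) *
            (1 / 2) ^ k := mul_le_mul_of_nonneg_left (by linarith) (by positivity)
        have a2 : (2 * (Cf : ℝ) + 7 * r + 12) * (q / 2) = (Cf + (7 * r + 12) / 2) * q := by ring
        linarith
      · exact mul_le_mul hκ'1.le hk2 (by positivity) hφ₀.le)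
    (fun w₁ v y h1 h2 h3 h4 => by
      rw [hownb] at h1 h4
      refine nli_of (hNl' ((Λ + 2) * q) (by positivity) hqb) (w := t) (Λ₀ := Λ) (q := q)
        (by linarith) (by linarith) ?_ h1 h2 h3 h4
      have a1 : (Λ + 2) ≤ φ₀ * (pn + 1) := by
        rw [div_le_iff₀ hφ₀] at hpn
        linarith
      have a2 : 1 / ((pn : ℝ) + 1) * ((Λ + 2) * q) = (Λ + 2) / (pn + 1) * q := by ring
      rw [a2]
      refine mul_le_mul_of_nonneg_right ?_ hq0.le
      rw [div_le_iff₀ (by positivity)]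
      exact a1)
    (fun w₁ _ _ => by
      obtain ⟨η, hη⟩ := hFa'.rn
      exact ⟨η w₁, hη w₁⟩)
    (Dr := D) (N := nb + M₀) (M := 2) (C₀ := CB) (a := t + 3 * q) (Eb := Eb r) (ηm := ηm)
    (ow := ow) (η := fun _ => ηm) (σ := fun _ => ηm)
    (lv := fun k l => lvN P c r Pt l (ow k) (ow k)) (bb := bb) (fb := fun k => k)
    (f := fun k => nb + k) (nb := nb) (n := M₀) (ks := ⌊(M₀ : ℝ) / Sl r⌋₊) hM1 hks.1
    (fun k' hk' => by
      show k' ≤ nb + M₀
      omega) (fun k' hk' => by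
      show nb + k' ≤ nb + M₀
      omega) rfl rfl rfl (by
      simp only [hok]
      have h1 := chV_mono (M₀ := M₀) (cb := cb) (show nb + ⌊(M₀ : ℝ) / Sl r⌋₊ ≤ nb + M₀ by omega)
      have h2 := mul_le_mul_of_nonneg_right h1 hq0.le
      linarith) (by
      rw [hownb, hok]
      exact hks.2) (by
      rw [hownb, hownn, sub_self, abs_zero]
      exact e5.le) (fun k' hk' => hGok k' (by omega)) (fun k' hk' => hGok (nb + k') (by omega))
    (fun k' _ => by
      simp only [hok]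
      exact chw_step hM1 hq0 hqM k') (fun k' _ => by
      simp only [hok]
      exact chw_step hM1 hq0 hqM (nb + k'))
    (fun k' hk' l hl => howlv k' (by omega) l hl) hηm2 (fun l hl => by
      rw [hownb]
      have h1 := hroomx t (by linarith) (by linarith) l hl
      linarith) 1
  -- the last windows
  obtain ⟨d, hd, hrat⟩ := W.rat 0 one_pos (β / 8 * q) (by positivity)
  simp only [one_mul] at hrat
  obtain ⟨a, ha1, ha2⟩ : ∃ a : ℚ, t + q < a ∧ (a : ℝ) < t + q + min d (β * q) :=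
    exists_rat_btwn (by
      have : 0 < min d (β * q) := lt_min hd (by positivity)
      linarith)
  obtain ⟨w, hw1, hw2⟩ : ∃ w : ℚ, t + ζ / 2 * q < w ∧
      (w : ℝ) < t + ζ / 2 * q + min d (ζ * q / 4) := exists_rat_btwn (by
      have : 0 < min d (ζ * q / 4) := lt_min hd (by positivity)
      linarith)
  have ha3 := min_le_left d (β * q)
  have ha4 := min_le_right d (β * q)
  have hw3 := min_le_left d (ζ * q / 4)
  have hw4 := min_le_right d (ζ * q / 4)
  have hζq : ζ * q ≤ 1 / 32 * q := mul_le_mul_of_nonneg_right hζ1 hq0.le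
  have hζq0 : 0 < ζ * q := by positivity
  have hβq0 : 0 < β * q := by positivity
  have hζ2 : ζ / 2 * q = ζ * q / 2 := by ring
  have hwa : (w : ℝ) ≤ a := by linarith
  obtain ⟨hbr, -, -⟩ := hrat a w ha1.le (by linarith) hw1.le (by linarith) hwa
  have hkd := R'.kd r (by omega)
  rw [hκ] at hkd
  obtain ⟨-, hthin⟩ := hkd
  have hth := hthin (t + q) (t + ζ / 2 * q) (by linarith) (by linarith) (by linarith)
  have hdT := abs_le.1 (R'.dT r (by omega) (t + ζ / 2 * q) (by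
    rw [add_sub_cancel_left, abs_of_pos (by positivity)]
    linarith))
  have hdL1 := abs_le.1 (R'.dL r (by omega) (t + q) (by
    rw [add_sub_cancel_left, abs_of_pos hq0]
    linarith))
  have hrt := hroomx t (by linarith) (by linarith)
  have hEbe := W.Ebe
  have hnum := v0_nmR (C := C) (q := q) (t := t) (β := β) (ζ := ζ) (s := Sl r) (κ₂ := κ₂)
    (ε := ε) (L0 := L r t t) (LN := L r (t + q) (t + q)) (bt := bet (P₂ r) c r a w) (Eb := Eb r)
    (e := e₂ r) (a := a) (w := w) hq0 hC1 hβ hβκ hβs hκ₂1 hζ0 hζ hε0.le (by linarith) (by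
      have h1 : (Sl r - 1) * (ζ / 2 * q) = Sl r * (t + ζ / 2 * q - t) - ζ / 2 * q := by ring
      rw [h1]
      linarith [hdT.2]) (by
      have h1 : Sl r * (t + q - t) = Sl r * q := by ring
      rw [h1] at hdL1
      linarith [hdL1.1]) ha1.le (by linarith) hw1.le (by linarith) (by
      have := hrt r le_rfl
      linarith) hEb (by linarith)
  obtain ⟨n1, n2, n3, n4, n5, n6, n7, n8, n9, n10, n11, n12⟩ := hnum
  have hCζ : C * (ζ * q) ≤ q := by
    have h1 : C * ζ ≤ 1 := by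
      have h2 : C * ζ ≤ C * ζ * (Sl r + 1) :=
        le_mul_of_one_le_right (by positivity) (by linarith)
      linarith
    have h2 := mul_le_mul_of_nonneg_right h1 hq0.le
    linarith
  have hlvt : ∀ l ≤ r, lvN P c r Pt l (ow nb) (ow nb) = L l t t := fun l hl => by
    rw [howlv nb (by omega) l hl, hownb]
  have hlvn : ∀ l ≤ r, lvN P c r Pt l (ow (nb + M₀)) (ow (nb + M₀)) = L l (t + q) (t + q) :=
    fun l hl => by rw [howlv _ (by omega) l hl, hownn]
  obtain ⟨J₁, hJ₁⟩ := radii_ok (M₀ := M₀) (cb := cb) (t := t) (q := q) (a := a)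
    (q₁ := ζ / 2 * q) (φ := φ' * q) (ζ := ζ * q) hM1 hq0 (by linarith) ha1.le n3 (by positivity)
    (by linarith) (by linarith) hζq0.le
  simp only [← hok, ← hnb] at hJ₁
  refine hend (S := S') (P := P₂ r) (θ := θ₂ r) (c := c) (C₀ := CB) (a' := t + 3 * q)
    (Eb := Eb r) (ηm := ηm) (ζ := ζ * q) (o := ow) (η := fun _ => ηm) (σ := fun _ => ηm)
    (r₀ := fun _ => min (q / (2 * M₀)) (ζ / 2 * q / 2))
    (lv := fun k l => lvN P c r Pt l (ow k) (ow k)) (bb := bb) (Dr := D) (N := nb + M₀)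
    (nb := nb) (n := M₀) (a := a) (w := w) (q₁ := ζ / 2 * q) (s₁ := κ₂ * q) (h := β * q)
    (h₂ := 2 * (β * q)) (e := e₂ r) (φ := φ' * q) (ι := ζ / 2 * q) (K₁ := K₁)
    (fun J => zzV M₀ cb t q a (ζ / 2 * q) J) R'.ne R'.tmc R'.pos W.thr₂ R'.tmh R'.inj le_rfl
    le_rfl (fun k' _ => ?_) hζq0 hηm1 (fun k' hk' l hl => ?_) (fun k' hk' => ?_) ?_ ?_ ?_ ?_ ?_
    ?_ ?_ (by exact_mod_cast hwa) ?_ ?_ ?_ hβq0 (by positivity) (by positivity) n4 n5 ?_ ?_ ?_ n9
    (fun l hl => ?_) (fun l hl => ?_) (fun j _ => Or.inr ?_) ?_ (by positivity) (by linarith)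
    (by positivity) hK₁ ⟨J₁, fun J hJ => ?_⟩ hwin ?_
  · simp only [hok]
    exact (chw_step hM1 hq0 hqM k').1
  · show (C : ℝ) * |lvN P c r Pt l (ow k') (ow k') - ow k' -
      (lvN P c r Pt l (ow nb) (ow nb) - ow nb)| ≤ ζ * q
    rw [hlvt l hl.le, howlv k' (by omega) l hl.le, hownb]
    have h1 := abs_le.1 (chV_abs (M₀ := M₀) (cb := cb) (co := co) (k := k') hM1 (by omega))
    have h2 := rec_one R' hSl hl (x := ow k') (by
      rw [hok, add_sub_cancel_left, abs_mul, abs_of_pos hq0]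
      exact mul_le_mul_of_nonneg_right (hVK k' (by omega)) hq0.le)
    have h3 : C * (ε * q) ≤ ζ * q := by
      calc C * (ε * q) ≤ C * (ζ / (2 * C) * q) :=
            mul_le_mul_of_nonneg_left (mul_le_mul_of_nonneg_right hε2 hq0.le) hC0.le
        _ = ζ * q / 2 := by field_simp
        _ ≤ ζ * q := by linarith
    exact (mul_le_mul_of_nonneg_left h2 hC0.le).trans h3
  · rcases hk' with rfl | rfl
    · refine ⟨by rw [hownb]; linarith, fun l hl => ?_⟩
      show C * (ζ * q) ≤ lvN P c r Pt l (ow k') (ow k') ∧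
        Eb r + lvN P c r Pt l (ow k') (ow k') + C * (ζ * q) ≤ 1
      rw [hlvt l hl]
      have h1 := hlowx t (by linarith) (by linarith) l hl
      have h2 := hrt l hl
      constructor <;> linarith
    · refine ⟨by rw [hownn]; linarith, fun l hl => ?_⟩
      show C * (ζ * q) ≤ lvN P c r Pt l (ow (nb + M₀)) (ow (nb + M₀)) ∧
        Eb r + lvN P c r Pt l (ow (nb + M₀)) (ow (nb + M₀)) + C * (ζ * q) ≤ 1
      rw [hlvn l hl]
      have h1 := hlowx (t + q) (by linarith) (by linarith) l hl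
      have h2 := hroomx (t + q) (by linarith) (by linarith) l hl
      constructor <;> linarith
  · rw [how0]; linarith
  · rw [how0]; linarith
  · rw [hownb]; linarith
  · rw [hownb]; linarith
  · rw [hownb]; linarith
  · rw [hownb]; exact n1
  · have h1 : (0 : ℝ) ≤ w := by linarith
    exact_mod_cast h1
  · have h1 : (a : ℝ) ≤ 1 := by linarith
    exact_mod_cast h1
  · have h1 : (w : ℝ) < 1 := by linarith
    exact_mod_cast h1
  · exact W.eθ w (by
      rw [abs_le]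
      constructor <;> linarith)
  · show bet (P₂ r) c r a w + β * q + C * (ζ * q) + 2 * (2 * (β * q)) ≤
      lvN P c r Pt r (ow nb) (ow nb) + κ₂ * q + (a - w)
    rw [hlvt r le_rfl]
    exact n6
  · show bet (P₂ r) c r a w + β * q + C * (ζ * q) + 2 * (2 * (β * q)) ≤
      lvN P c r Pt r (ow (nb + M₀)) (ow (nb + M₀)) - (ow (nb + M₀) - w) + (a - w)
    rw [hlvn r le_rfl, hownn]
    exact n7
  · show bet (P₂ r) c r a w + β * q + C * (ζ * q) + 2 * (2 * (β * q)) + ζ / 2 * q ≤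
      lvN P c r Pt r (ow nb) (ow nb) + 2 * (a - w)
    rw [hlvt r le_rfl]
    exact n8
  · show Eb r + lvN P c r Pt l (ow nb) (ow nb) + 2 * (a - w) + C * (ζ * q) ≤ 1
    rw [hlvt l hl]
    refine n10 _ ?_
    have := hrt l hl
    linarith
  · show Eb r + lvN P c r Pt l (ow nb) (ow nb) + max (κ₂ * q) 0 + 2 * (ζ / 2 * q) +
      C * (ζ * q) ≤ 1
    rw [hlvt l hl]
    refine n11 _ ?_
    have := hrt l hl
    linarith
  · show bet (P₂ r) c r a w + β * q ≤ lvN P c r Pt r (ow nb) (ow nb) + (a - w) + ζ * q +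
      2 * (β * q)
    rw [hlvt r le_rfl]
    exact n12
  · rw [hownb]; linarith
  · obtain ⟨z1, z2, z3, z4, z5, z6, z7⟩ := hJ₁ J hJ
    refine ⟨z1, fun k' _ => z2 k', z3 nb, z4 nb, ?_, ?_⟩
    · rw [hownb]
      exact z5 nb
    · rw [hownb]
      exact z6 nb
  · refine Bas.mono J₁ hbas ?_
    rintro J hJ F A h1 κ g₀ Gc H hW hc1 hc2
    obtain ⟨z1, z2, z3, z4, z5, z6, z7⟩ := hJ₁ J hJ
    refine h1 hW (fun k' _ => ⟨0, by omega, z2 k'⟩) (fun k' _ => ⟨0, by omega, z2 (nb + k')⟩)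
      ⟨1, by omega, 2, le_rfl, (z3 0).trans ?_, z7 0⟩ hc1 hc2
    have hJ0 : (0 : ℝ) ≤ J := Nat.cast_nonneg J
    exact mul_le_mul_of_nonneg_right (by linarith) hJ0

end Pool.V0F
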