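import Pool.Agent.H92.V0F.Vsj
import Pool.Agent.H44.V0F.V0c

/-!
# The velocities of the last place alone in the void case: the theorem without hypothesis
-/

set_option autoImplicit false

namespace Pool.V0F

/-- **The leaf** `LVoA`. -/
theorem lVoA {n : ℕ} (hn : 2 ≤ n) : Pool.ASM.LVoA n := v0_lVoA v0c_stmt hn

end Pool.V0F
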