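import Pool.Agent.H92.V0F.Vsg

/-!
# The numbers of the end
-/

set_option autoImplicit false

namespace Pool.V0F

open Finset Real

/-- **The numbers of the end**, in the unit `q`. -/
theorem v0_nmR {C q t β ζ s κ₂ ε L0 LN bt Eb e a w : ℝ} (hq : 0 < q) (hC : 1 ≤ C) (hβ : 0 < β)
    (hβκ : 32 * β ≤ κ₂) (hβs : 32 * β ≤ s - 1) (hκ1 : κ₂ ≤ 1) (hζ0 : 0 < ζ)
    (hζ : C * ζ * (s + 1) = β) (hε0 : 0 ≤ ε) (hε : 16 * ε ≤ β)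
    (hbt : bt ≤ L0 + q + (s - 1) * (ζ / 2 * q) + 2 * (ε * q) + β / 8 * q)
    (hLN : L0 + s * q - ε * q ≤ LN) (ha1 : t + q ≤ a) (ha2 : a ≤ t + q + β * q)
    (hw1 : t + ζ / 2 * q ≤ w) (hw2 : w ≤ t + ζ / 2 * q + ζ * q / 4)
    (hroom : L0 + Eb + 3 * q < 1) (hEb : 0 < Eb) (he : Eb + 3 * q < e) :
    w ≤ t + ζ * q ∧ w ≤ a ∧ a ≤ t + 3 / 2 * q ∧ bt + β * q ≤ 1 ∧
    Eb + C * (ζ * q) + 2 * (2 * (β * q)) ≤ e ∧
    bt + β * q + C * (ζ * q) + 2 * (2 * (β * q)) ≤ L0 + κ₂ * q + (a - w) ∧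
    bt + β * q + C * (ζ * q) + 2 * (2 * (β * q)) ≤ LN - (t + q - w) + (a - w) ∧
    bt + β * q + C * (ζ * q) + 2 * (2 * (β * q)) + ζ / 2 * q ≤ L0 + 2 * (a - w) ∧
    ζ / 2 * q + C * (ζ * q) ≤ a - w ∧
    (∀ x : ℝ, x + Eb + 3 * q < 1 → Eb + x + 2 * (a - w) + C * (ζ * q) ≤ 1) ∧
    (∀ x : ℝ, x + Eb + 3 * q < 1 →
      Eb + x + max (κ₂ * q) 0 + 2 * (ζ / 2 * q) + C * (ζ * q) ≤ 1) ∧
    bt + β * q ≤ L0 + (a - w) + ζ * q + 2 * (β * q) := by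
  obtain ⟨X, hX⟩ : ∃ X, X = β * q := ⟨_, rfl⟩
  obtain ⟨Z, hZ⟩ : ∃ Z, Z = ζ * q := ⟨_, rfl⟩
  obtain ⟨Y, hY⟩ : ∃ Y, Y = C * (ζ * q) := ⟨_, rfl⟩
  obtain ⟨U, hU⟩ : ∃ U, U = ε * q := ⟨_, rfl⟩
  obtain ⟨W, hW⟩ : ∃ W, W = κ₂ * q := ⟨_, rfl⟩
  obtain ⟨Q, hQ⟩ : ∃ Q, Q = s * q := ⟨_, rfl⟩
  have hX0 : 0 < X := by rw [hX]; positivity
  have hZ0 : 0 < Z := by rw [hZ]; positivity
  have hU0 : 0 ≤ U := by rw [hU]; positivity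
  have hs : 1 < s := by linarith
  have hYZ : Z ≤ Y := by
    rw [hY, ← hZ]
    exact le_mul_of_one_le_left hZ0.le hC
  have hYX : 2 * Y ≤ X := by
    have h1 : Y * (s + 1) = X := by
      rw [hY, hX, ← hζ]
      ring
    nlinarith
  have hsV : (s - 1) * (ζ / 2 * q) ≤ X / 2 := by
    have h1 : (s + 1) * Y = X := by
      rw [hY, hX, ← hζ]
      ring
    have h2 : (s - 1) * (ζ / 2 * q) = (s - 1) * Z / 2 := by
      rw [hZ]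
      ring
    have h3 : (s - 1) * Z ≤ (s + 1) * Y :=
      mul_le_mul (by linarith) hYZ hZ0.le (by linarith)
    rw [h2]
    linarith
  have h1 : 32 * X ≤ W := by
    rw [hX, hW]
    have := mul_le_mul_of_nonneg_right hβκ hq.le
    linarith
  have h2 : 32 * X ≤ Q - q := by
    rw [hX, hQ]
    have := mul_le_mul_of_nonneg_right hβs hq.le
    linarith
  have h3 : W ≤ q := by
    rw [hW]
    have := mul_le_mul_of_nonneg_right hκ1 hq.le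
    linarith
  have h4 : 16 * U ≤ X := by
    rw [hU, hX]
    have := mul_le_mul_of_nonneg_right hε hq.le
    linarith
  have e1 : β / 8 * q = X / 8 := by rw [hX]; ring
  have e2 : ζ / 2 * q = Z / 2 := by rw [hZ]; ring
  have e3 : max (κ₂ * q) 0 = W := by
    rw [← hW]
    exact max_eq_left (by linarith)
  rw [e1, ← hU] at hbt
  rw [← hQ, ← hU] at hLN
  rw [← hX] at ha2
  rw [e2] at hw1 hw2
  rw [← hZ] at hw2
  rw [e2, e3, ← hY, ← hX, ← hW, ← hZ]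
  refine ⟨?_, ?_, ?_, ?_, ?_, ?_, ?_, ?_, ?_, fun x hx => ?_, fun x hx => ?_, ?_⟩ <;> linarith

end Pool.V0F
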