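import Pool.Agent.H92.V0F.Vse

/-!
# The radii of the windows of the fine chain
-/

set_option autoImplicit false

namespace Pool.V0F

open Finset Real

/-- The radii: the step, a small radius, the radius of the thin box. -/
noncomputable def zzV (M₀ cb : ℕ) (t q a q₁ : ℝ) (J k i : ℕ) : ℕ :=
  if i = 0 then ⌊(t + chV M₀ cb (k + 1) * q) * J⌋₊ - ⌊(t + chV M₀ cb k * q) * J⌋₊
  else if i = 1 then ⌊q₁ * J⌋₊ else ⌊a * J⌋₊ - ⌊t * J⌋₊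

theorem radii_ok {M₀ cb : ℕ} (hM : 1 ≤ M₀) {t q a q₁ φ ζ : ℝ} (hq : 0 < q)
    (ht : 0 ≤ t - cb * q) (ha1 : t + q ≤ a) (ha2 : a ≤ t + 3 / 2 * q) (hq₁ : 0 < q₁)
    (hq₁q : 2 * q₁ ≤ q) (hφ : 4 * φ ≤ q₁) (hζ : 0 ≤ ζ) : ∃ J₁ : ℕ, ∀ J ≥ J₁,
    (∀ k ≤ cb * M₀ + M₀, ∀ i ≤ 2, min (q / (2 * M₀)) (q₁ / 2) * J ≤ zzV M₀ cb t q a q₁ J k i ∧
      zzV M₀ cb t q a q₁ J k i ≤ ⌊(t + 3 * q) * J⌋₊ - ⌊(t + chV M₀ cb k * q) * J⌋₊) ∧
    (∀ k : ℕ, zzV M₀ cb t q a q₁ J k 0 =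
      ⌊(t + chV M₀ cb (k + 1) * q) * J⌋₊ - ⌊(t + chV M₀ cb k * q) * J⌋₊) ∧
    (∀ k : ℕ, (zzV M₀ cb t q a q₁ J k 1 : ℝ) ≤ q₁ * J) ∧
    (∀ k : ℕ, 2 * φ * J + 1 ≤ zzV M₀ cb t q a q₁ J k 1) ∧
    (∀ k : ℕ, ⌊t * J⌋₊ + zzV M₀ cb t q a q₁ J k 2 ≤ ⌊a * J⌋₊) ∧
    (∀ k : ℕ, a * J ≤ ⌊t * J⌋₊ + zzV M₀ cb t q a q₁ J k 2 + ζ * J + 2) ∧
    (∀ k : ℕ, zzV M₀ cb t q a q₁ J k 1 + 1 ≤ zzV M₀ cb t q a q₁ J k 2) := by
  have hM0 : (0 : ℝ) < M₀ := by exact_mod_cast hM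
  have hM1 : (1 : ℝ) ≤ M₀ := by exact_mod_cast hM
  have hcb : (0 : ℝ) ≤ cb := Nat.cast_nonneg _
  have hcbq : 0 ≤ cb * q := by positivity
  have ht0 : 0 ≤ t := by linarith
  have hqM : 0 < q / M₀ := by positivity
  have hqM2 : 0 < q / (2 * M₀) := by positivity
  have hqMq : q / M₀ ≤ q := div_le_self hq.le hM1
  obtain ⟨J₁, hJ₁⟩ := exists_nat_ge (max (2 / (q / (2 * M₀))) (max (4 / q₁) (8 / q)))
  refine ⟨J₁, fun J hJ => ?_⟩
  have hJR : (J₁ : ℝ) ≤ J := by exact_mod_cast hJ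
  have hJ0 : (0 : ℝ) ≤ J := Nat.cast_nonneg J
  have j1 : 2 ≤ q / (2 * M₀) * J := by
    have h1 := ((le_max_left _ _).trans hJ₁).trans hJR
    rw [div_le_iff₀ hqM2] at h1
    linarith
  have j2 : 4 ≤ q₁ * J := by
    have h1 := (((le_max_left _ _).trans (le_max_right _ _)).trans hJ₁).trans hJR
    rw [div_le_iff₀ hq₁] at h1
    linarith
  have j3 : 8 ≤ q * J := by
    have h1 := (((le_max_right _ _).trans (le_max_right _ _)).trans hJ₁).trans hJR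
    rw [div_le_iff₀ hq] at h1
    linarith
  have hmul : ∀ {x y : ℝ}, x ≤ y → x * (J : ℝ) ≤ y * J := fun h =>
    mul_le_mul_of_nonneg_right h hJ0
  -- floors
  have f1 : ∀ x : ℝ, 0 ≤ x → (⌊x * J⌋₊ : ℝ) ≤ x * J := fun x hx =>
    Nat.floor_le (mul_nonneg hx hJ0)
  have f2 : ∀ x : ℝ, x * J - 1 < ⌊x * J⌋₊ := fun x => Nat.sub_one_lt_floor _
  have ho : ∀ k : ℕ, 0 ≤ t + chV M₀ cb k * q := by
    intro k
    have h1 := chV_mono (M₀ := M₀) (cb := cb) (Nat.zero_le k)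
    rw [chV_zero] at h1
    have h2 := mul_le_mul_of_nonneg_right h1 hq.le
    linarith
  have hstep : ∀ k : ℕ, t + chV M₀ cb (k + 1) * q = t + chV M₀ cb k * q + q / M₀ := by
    intro k
    rw [chV_succ]
    ring
  have z0 : ∀ k : ℕ, zzV M₀ cb t q a q₁ J k 0 =
      ⌊(t + chV M₀ cb (k + 1) * q) * J⌋₊ - ⌊(t + chV M₀ cb k * q) * J⌋₊ := fun k => by
    unfold zzV
    rw [if_pos rfl]
  have z1 : ∀ k : ℕ, zzV M₀ cb t q a q₁ J k 1 = ⌊q₁ * J⌋₊ := fun k => by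
    unfold zzV
    rw [if_neg (by norm_num), if_pos rfl]
  have z2 : ∀ k : ℕ, zzV M₀ cb t q a q₁ J k 2 = ⌊a * J⌋₊ - ⌊t * J⌋₊ := fun k => by
    unfold zzV
    rw [if_neg (by norm_num), if_neg (by norm_num)]
  have hta : ⌊t * J⌋₊ ≤ ⌊a * J⌋₊ := Nat.floor_le_floor (hmul (by linarith))
  have c2 : ((⌊a * J⌋₊ - ⌊t * J⌋₊ : ℕ) : ℝ) = ⌊a * J⌋₊ - ⌊t * J⌋₊ := by
    rw [Nat.cast_sub hta]
  have c0 : ∀ k : ℕ, ((⌊(t + chV M₀ cb (k + 1) * q) * J⌋₊ - ⌊(t + chV M₀ cb k * q) * J⌋₊ : ℕ) : ℝ)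
      = ⌊(t + chV M₀ cb (k + 1) * q) * J⌋₊ - ⌊(t + chV M₀ cb k * q) * J⌋₊ := fun k => by
    rw [Nat.cast_sub (Nat.floor_le_floor (hmul (by rw [hstep]; linarith)))]
  have a1 := f2 a
  have a2 := f1 a (by linarith)
  have a3 := f2 t
  have a4 := f1 t ht0
  have b1 := f2 q₁
  have b2 := f1 q₁ hq₁.le
  have e1 := hmul ha1
  have e2 := hmul ha2
  have e3 : (t + q) * (J : ℝ) = t * J + q * J := by ring
  have e4 : (t + 3 / 2 * q) * (J : ℝ) = t * J + 3 / 2 * (q * J) := by ring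
  have hq₁J := hmul hq₁q
  have e5 : 2 * q₁ * (J : ℝ) = 2 * (q₁ * J) := by ring
  rw [e3] at e1
  rw [e4] at e2
  rw [e5] at hq₁J
  refine ⟨fun k hk i hi => ?_, z0, fun k => by rw [z1]; exact b2, fun k => ?_, fun k => ?_,
    fun k => ?_, fun k => ?_⟩
  · have m1 : min (q / (2 * M₀)) (q₁ / 2) * (J : ℝ) ≤ q / (2 * M₀) * J := hmul (min_le_left _ _)
    have m2 : min (q / (2 * M₀)) (q₁ / 2) * (J : ℝ) ≤ q₁ / 2 * J := hmul (min_le_right _ _)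
    have hkt : t + chV M₀ cb k * q ≤ t + q := by
      have h1 := chV_mono (M₀ := M₀) (cb := cb) hk
      rw [chV_nb hM, div_self hM0.ne'] at h1
      have h2 := mul_le_mul_of_nonneg_right h1 hq.le
      linarith
    have h4 : (⌊(t + chV M₀ cb k * q) * J⌋₊ : ℝ) ≤ t * J + q * J := by
      have h5 := f1 _ (ho k)
      have h6 := hmul hkt
      rw [e3] at h6
      linarith
    have h7 := f2 (t + 3 * q)
    have e6 : (t + 3 * q) * (J : ℝ) = t * J + 3 * (q * J) := by ring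
    rw [e6] at h7
    have h8 : ⌊(t + chV M₀ cb k * q) * J⌋₊ ≤ ⌊(t + 3 * q) * J⌋₊ :=
      Nat.floor_le_floor (hmul (by linarith))
    have h9 : ∀ x : ℕ, (x : ℝ) ≤ 2 * (q * J) - 1 →
        x ≤ ⌊(t + 3 * q) * J⌋₊ - ⌊(t + chV M₀ cb k * q) * J⌋₊ := by
      intro x hx
      have h10 : (x : ℝ) ≤ ((⌊(t + 3 * q) * J⌋₊ - ⌊(t + chV M₀ cb k * q) * J⌋₊ : ℕ) : ℝ) := by
        rw [Nat.cast_sub h8, e6]
        linarith
      exact_mod_cast h10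
    obtain rfl | rfl | rfl : i = 0 ∨ i = 1 ∨ i = 2 := by omega
    · rw [z0 k]
      refine ⟨?_, h9 _ ?_⟩
      · rw [c0]
        have g1 := f2 (t + chV M₀ cb (k + 1) * q)
        have g2 := f1 _ (ho k)
        rw [hstep] at g1 ⊢
        have e7 : (t + chV M₀ cb k * q + q / M₀) * (J : ℝ) =
            (t + chV M₀ cb k * q) * J + 2 * (q / (2 * M₀) * J) := by
          field_simp
        rw [e7] at g1 ⊢
        linarith
      · rw [c0]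
        have g1 := f1 _ (ho (k + 1))
        have g2 := f2 (t + chV M₀ cb k * q)
        rw [hstep] at g1 ⊢
        have e7 : (t + chV M₀ cb k * q + q / M₀) * (J : ℝ) =
            (t + chV M₀ cb k * q) * J + q / M₀ * J := by ring
        rw [e7] at g1 ⊢
        have := hmul hqMq
        linarith
    · rw [z1]
      exact ⟨by linarith, h9 _ (by linarith)⟩
    · rw [z2]
      refine ⟨?_, h9 _ ?_⟩
      · rw [c2]
        linarith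
      · rw [c2]
        linarith
  · rw [z1]
    have h1 := hmul hφ
    have e6 : 4 * φ * (J : ℝ) = 4 * (φ * J) := by ring
    rw [e6] at h1
    have e7 : 2 * φ * (J : ℝ) = 2 * (φ * J) := by ring
    rw [e7]
    linarith
  · rw [z2]
    omega
  · rw [z2, c2]
    have : 0 ≤ ζ * J := mul_nonneg hζ hJ0
    linarith
  · rw [z1, z2]
    have h1 : ((⌊q₁ * J⌋₊ + 1 : ℕ) : ℝ) ≤ ((⌊a * J⌋₊ - ⌊t * J⌋₊ : ℕ) : ℝ) := by
      rw [c2]
      push_cast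
      linarith
    exact_mod_cast h1

end Pool.V0F
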