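import Pool.Agent.H92.V0F.Vsf
import Pool.Agent.H44.V0F.S6

/-!
# The ladder of a record
-/

set_option autoImplicit false

namespace Pool.V0F

open Finset Real MvPolynomial
open Pool.Agent.H49.Ent Pool.Agent.H32.Dense Pool.STK Pool.KA Pool.KSAT Pool.K2S Pool.PB Pool.GEN
open Pool.S6C Pool.RCD Pool.LA91 Pool.OWN68 Pool.PKG
open Pool.D2R (BalD)
open Pool.CHT (chsys TmH)
open Pool.ISO (lvN)

section

variable {r : ℕ} {S : PCl (r + 1)} {al : ℝ} {g₀ : ℝ → ℝ}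
  {P : List (Fin (r + 1)) × Fin (r + 1) → ℝ → ℝ → ℝ}
  {θ : ℝ} {P₂ : ℕ → List (Fin (r + 1)) × Fin (r + 1) → ℝ → ℝ → ℝ} {θ₂ Eb e₂ : ℕ → ℝ}
  {c : ℕ → Fin (r + 1)} {Pt : ℝ → ℝ → ℝ} {rt : ℝ → ℝ} {h K₀ g : ℝ} {L T : ℕ → ℝ → ℝ → ℝ}
  {Sl : ℕ → ℝ} {κ : ℕ → Kg} {G : Set ℝ} {S₀ N : ℕ} {A V : ℕ → ℝ} {S₂ N' : ℕ} {V' : ℕ → ℝ}
  {K ε q t : ℝ}
  (R : RecG S al g₀ P θ P₂ θ₂ Eb e₂ c Pt rt h K₀ g L T Sl κ G S₀ N A V S₂ N' V' K ε q t)
include R

/-- **The ladder** of the windows of the fine chain. -/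
theorem rec_lad {M₀ cb co : ℕ} (hM : 1 ≤ M₀) (hN' : N' = (cb + co) * M₀ + 1)
    (hV' : ∀ k < N', V' k = chV M₀ cb k) (hcK : (cb : ℝ) + co + 1 ≤ K) (hε : 0 < ε)
    (hSl : ∀ l < r, Sl l = 1) (hs : 1 ≤ Sl r) {φ : ℝ} (hφ : 4 * (ε * q) ≤ φ)
    (hφM : q / M₀ ≤ φ) (hch : ChG S c r (fun l w => L l w w) G)
    (hatt : ∀ k < N', ∃ rk E : ℝ, 0 ≤ rk ∧ rk < 1 ∧ 0 ≤ E ∧
      E + L r (t + V' k * q) (t + V' k * q) < 1 ∧
      LbU S ((range r).image c) (c r) (t + V' k * q) (L r (t + V' k * q) (t + V' k * q)) rk E) :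
    Lad S c r (fun l w => L l w w) {v | ∃ k < N', v = t + chV M₀ cb k * q}
      (t + chV M₀ cb 0 * q) (t + co * q) φ := by
  have hq := R.q0
  have hM0 : (0 : ℝ) < M₀ := by exact_mod_cast hM
  have hcb : (0 : ℝ) ≤ cb := Nat.cast_nonneg _
  have hco : (0 : ℝ) ≤ co := Nat.cast_nonneg _
  have hK1 : 1 ≤ K := by linarith
  have hKq : q ≤ K * q := le_mul_of_one_le_left hq.le hK1
  have hcbK : cb * q + co * q + q ≤ K * q := by
    have := mul_le_mul_of_nonneg_right hcK hq.le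
    linarith
  have hcbq : 0 ≤ cb * q := by positivity
  have hcoq : 0 ≤ co * q := by positivity
  have ht0 := R.t0
  have ht1 := R.t1
  have hεq : 0 < ε * q := mul_pos hε hq
  have hr : ∀ v ∈ {v : ℝ | ∃ k < N', v = t + chV M₀ cb k * q}, |v - t| ≤ K * q := by
    rintro v ⟨k, hk, rfl⟩
    have h1 := chV_abs (M₀ := M₀) (cb := cb) (co := co) hM (by omega : k < (cb + co) * M₀ + 1)
    rw [add_sub_cancel_left, abs_mul, abs_of_pos hq]
    exact mul_le_mul_of_nonneg_right (by linarith) hq.le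
  have hGG : {v : ℝ | ∃ k < N', v = t + chV M₀ cb k * q} ⊆ G := by
    rintro v ⟨k, hk, rfl⟩
    rw [← hV' k hk]
    exact R.memG.2 k hk
  refine ⟨⟨6, R.tmc⟩, R.pos, R.inj, hch.mono hGG, ?_, ⟨0, by omega, rfl⟩, ?_, ?_, ?_, ?_, ?_, ?_,
    ?_, ?_⟩
  · rintro v ⟨k, hk, rfl⟩
    obtain ⟨rk, E, h1, h2, h3, h4, h5⟩ := hatt k hk
    rw [hV' k hk] at h4 h5
    exact ⟨rk, E, h1, h2, h3, h4, h5⟩
  · exact ⟨(cb + co) * M₀, by omega, by rw [chV_top hM]⟩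
  · rw [chV_zero]
    linarith
  · rw [chV_zero]
    linarith
  · linarith
  · linarith
  · intro x hx1 hx2
    rw [chV_zero] at hx1
    obtain ⟨k, hk, k1, k2⟩ := grid_near (M₀ := M₀) (cb := cb) (co := co) (x := x) hM hq
      (by linarith) hx2
    refine ⟨_, ⟨k, by omega, rfl⟩, ?_⟩
    rw [abs_le]
    have : 0 ≤ q / M₀ := by positivity
    constructor <;> linarith
  · intro i hi v hv _ _
    have h1 := rec_one R hSl hi (hr v hv)
    have h2 := rec_one R hSl hi (x := t + co * q) (by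
      rw [add_sub_cancel_left, abs_of_nonneg hcoq]
      linarith)
    have h3 := abs_le.1 h1
    have h4 := abs_le.1 h2
    rw [abs_le]
    constructor <;> linarith [h3.1, h3.2, h4.1, h4.2]
  · intro v hv v' hv' _ hvv _
    have h1 := abs_le.1 (R.dL r (by omega) v (hr v hv))
    have h2 := abs_le.1 (R.dL r (by omega) v' (hr v' hv'))
    have h3 : v' - v ≤ Sl r * (v' - v) := le_mul_of_one_le_left (by linarith) hs
    have h4 : Sl r * (v' - v) = Sl r * (v' - t) - Sl r * (v - t) := by ring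
    show L r v v + (v' - v) ≤ L r v' v' + φ
    linarith [h1.1, h1.2, h2.1, h2.2]

/-- **The ball windows** of the chain, of the small size. -/
theorem rec_balS (hr : 1 ≤ r) {k : ℕ} (hk : k < N') {x : ℝ} (hx : V' k < x)
    (hxK : x - V' k ≤ 3 * K) (hVK : |V' k| ≤ K) :
    BalD S P θ c r Pt (t + x * q) (t + V' k * q) S₀ (Eb r) := by
  have W := R.tg r hr (by omega)
  have hlast : L r = Pt := R.lv_last (by omega)
  have hq := R.q0
  have h1 : V' k * q < x * q := mul_lt_mul_of_pos_right hx hq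
  have h2 := W.ptc k hk
  rw [hlast] at h2
  obtain ⟨ρ, vs, e, e₀, E, sg, Q, k1, k2, -⟩ := h2
  refine ⟨by linarith, ⟨ρ, vs, e, e₀, E, sg, Q, k1, k2⟩, fun l hl => ?_⟩
  have h3 := W.room l hl (t + V' k * q) (by
    rw [add_sub_cancel_left, abs_mul, abs_of_pos hq]
    exact mul_le_mul_of_nonneg_right hVK hq.le)
  have h4 : lvN P c r Pt l (t + V' k * q) (t + V' k * q) =
      L l (t + V' k * q) (t + V' k * q) := by
    rw [R.lv l (by omega)]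
    rfl
  have h5 : (x - V' k) * q ≤ 3 * K * q := mul_le_mul_of_nonneg_right hxK hq.le
  rw [h4]
  linarith

omit R in
/-- **The labels with a margin**, of a larger degree. -/
theorem rec_labv {M₀ cb : ℕ} (hV' : ∀ k < N', V' k = chV M₀ cb k) {D D' : ℕ} (hD : D ≤ D')
    {m₁ : ℝ} (hlab : ∀ k < N', ∃ (E rd : ℕ → ℝ) (ρ : ℝ), ρ < 1 ∧
        (∀ l ≤ r + 1 - 1, 0 ≤ E l ∧ L l (t + V' k * q) (t + V' k * q) + E l + m₁ ≤ 1 ∧
          0 ≤ rd l ∧ rd l ≤ ρ) ∧ ∀ e : ℝ, 0 < e →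
        Bas S (fun J F A => ∃ (V : Type) (z : PtT F → V) (z' : LnT F → V)
          (g : V → ℕ → MvPolynomial (Option (Fin (r + 1))) ℝ),
          LbE F c (r + 1) D E e (t + V' k * q) rd
            (fun l => L l (t + V' k * q) (t + V' k * q)) A z z' g)) :
    ∀ v ∈ {v : ℝ | ∃ k < N', v = t + chV M₀ cb k * q}, ∃ (E rd : ℕ → ℝ) (ρ : ℝ), ρ < 1 ∧
      (∀ l ≤ r, 0 ≤ E l ∧ L l v v + E l + m₁ ≤ 1 ∧ 0 ≤ rd l ∧ rd l ≤ ρ) ∧ ∀ e : ℝ, 0 < e →
      Bas S (fun J F A => ∃ (V : Type) (z : PtT F → V) (z' : LnT F → V)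
        (g : V → ℕ → MvPolynomial (Option (Fin (r + 1))) ℝ),
        LbE F c (r + 1) D' E e v rd (fun l => L l v v) A z z' g) := by
  rintro v ⟨k, hk, rfl⟩
  obtain ⟨E, rd, ρ, h1, h2, h3⟩ := hlab k hk
  rw [hV' k hk] at h2 h3
  refine ⟨E, rd, ρ, h1, h2, fun e he => (h3 e he).mono 0 ?_⟩
  rintro J - F A' ⟨V₁, z, z', g', h4⟩
  exact ⟨V₁, z, z', g', fun i hi => (h4 i hi).mono (Finset.Subset.refl _) hD le_rfl le_rfl le_rfl⟩

end

/-- **The windows of the fine chain** `t + chV k q`. -/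
theorem chw_step {M₀ cb : ℕ} (hM : 1 ≤ M₀) {t q φ : ℝ} (hq : 0 < q) (hφM : q / M₀ ≤ φ) (k : ℕ) :
    t + chV M₀ cb k * q ≤ t + chV M₀ cb (k + 1) * q ∧
      t + chV M₀ cb (k + 1) * q ≤ t + chV M₀ cb k * q + φ := by
  have hM0 : (0 : ℝ) < M₀ := by exact_mod_cast hM
  have h1 : t + chV M₀ cb (k + 1) * q = t + chV M₀ cb k * q + q / M₀ := by
    rw [chV_succ]
    ring
  have : 0 < q / M₀ := by positivity
  rw [h1]
  constructor <;> linarith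

/-- The window at `w + u / s`. -/
theorem chw_ks {M₀ cb : ℕ} (hM : 1 ≤ M₀) {t q φ s : ℝ} (hs : 1 < s) (hq : 0 < q)
    (hφM : q / M₀ ≤ φ) : ⌊(M₀ : ℝ) / s⌋₊ ≤ M₀ ∧
      |t + chV M₀ cb (cb * M₀ + ⌊(M₀ : ℝ) / s⌋₊) * q - (t + q / s)| ≤ φ := by
  have hM0 : (0 : ℝ) < M₀ := by exact_mod_cast hM
  have hs0 : 0 < s := by linarith
  have h0 : 0 ≤ (M₀ : ℝ) / s := by positivity
  constructor
  · refine Nat.floor_le_of_le ?_
    exact div_le_self hM0.le hs.le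
  · rw [chV_nb hM]
    have h1 := Nat.floor_le h0
    have h2 := (Nat.lt_floor_add_one ((M₀ : ℝ) / s)).le
    have e1 : (M₀ : ℝ) / s * (q / M₀) = q / s := by field_simp
    have e2 : (⌊(M₀ : ℝ) / s⌋₊ : ℝ) / M₀ * q = ⌊(M₀ : ℝ) / s⌋₊ * (q / M₀) := by ring
    have h3 : 0 < q / M₀ := by positivity
    have h4 := mul_le_mul_of_nonneg_right h1 h3.le
    have h5 := mul_le_mul_of_nonneg_right h2 h3.le
    rw [e1] at h4
    rw [e1, add_mul] at h5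
    rw [e2, abs_le]
    constructor <;> linarith

end Pool.V0F
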