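import Pool.Agent.H92.V0F.Vsi

/-!
# The base coordinates over the charts of an earlier window: the cell

`v0_lVoA`: `LVoA n` from the class theorem.
-/

set_option autoImplicit false

namespace Pool.V0F

open Pool.GEN Pool.PKG Pool.LA91

/-- **The cell** `LVoA n` from the class theorem. -/
theorem v0_lVoA (hV : V0cStmt) {n : ℕ} (hn : 2 ≤ n) : Pool.ASM.LVoA n := by
  obtain ⟨r, rfl⟩ : ∃ r, n = r + 1 := ⟨n - 1, by omega⟩
  refine Pool.ASM.lVoA_of_gq (Q := sumQ FaQ (sumQ NlaQ (sumQ AttUQ ChUQ)))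
    (aePG_sum (aePG_fa _) (her_fa _) (aePG_sum (t_nla _) (her_nla _)
      (aePG_sum (aePG_attU _) (her_attU _) (aePG_chU _)))) ?_
  intro h h0 h1 Sl k1 k2
  refine v0_void hV (by omega) h0 h1 (fun l hl => k1 l (by omega)) (fun l hl => ?_) ?_ k2
  · unfold Pool.ASM.kgV
    rw [if_pos (by omega)]
  · unfold Pool.ASM.kgV
    rw [if_neg (by omega)]

end Pool.V0F
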